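import Pool.Agent.H537R2.Apsp.Typ

/-!
# Few pairs have small distance
-/

set_option linter.unusedSectionVars false
set_option maxHeartbeats 400000

namespace Pool.Agent.H537R2.Apsp

open Finset

theorem card_two {κ : Type} [Fintype κ] [DecidableEq κ] (n : ℕ) (hn : 0 < n) (p q : κ)
    (hpq : p ≠ q) (A B : Finset (Fin n)) :
    (#(univ.filter (fun x : κ → Fin n => x p ∈ A ∧ x q ∈ B)) : ℝ) =
      (#A / n) * (#B / n) * (n : ℝ) ^ Fintype.card κ := by
  have h1 : univ.filter (fun x : κ → Fin n => x p ∈ A ∧ x q ∈ B) =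
      Fintype.piFinset (fun j => if j = p then A else if j = q then B else univ) := by
    ext x
    simp only [mem_filter, mem_univ, true_and, Fintype.mem_piFinset]
    constructor
    · rintro ⟨h1, h2⟩ j
      by_cases hj : j = p
      · rw [if_pos hj, hj]; exact h1
      · rw [if_neg hj]
        by_cases hj2 : j = q
        · rw [if_pos hj2, hj2]; exact h2
        · rw [if_neg hj2]; exact mem_univ _
    · intro h
      have h1 := h p
      have h2 := h q
      rw [if_pos rfl] at h1
      rw [if_neg (Ne.symm hpq), if_pos rfl] at h2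
      exact ⟨h1, h2⟩
  have hn' : (n : ℝ) ≠ 0 := by
    have : (0 : ℝ) < n := by exact_mod_cast hn
    exact this.ne'
  rw [h1, Fintype.card_piFinset]
  push_cast
  have h2 : ∀ j : κ, ((#(if j = p then A else if j = q then B else univ) : ℕ) : ℝ) =
      ((if j = p then (#A / n : ℝ) else 1) * (if j = q then (#B / n : ℝ) else 1)) * n := by
    intro j
    by_cases hj : j = p
    · have hj2 : j ≠ q := by rw [hj]; exact hpq
      rw [if_pos hj, if_pos hj, if_neg hj2]
      field_simp
    · rw [if_neg hj, if_neg hj]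
      by_cases hj2 : j = q
      · rw [if_pos hj2, if_pos hj2]
        field_simp
      · rw [if_neg hj2, if_neg hj2]
        simp
  simp only [h2]
  rw [prod_mul_distrib, prod_mul_distrib, prod_const, card_univ, prod_ite_eq', prod_ite_eq',
    if_pos (mem_univ _), if_pos (mem_univ _)]

variable {n : ℕ}

/-- The pair has a sum which is at most `τ`. -/
def BadPair (τ : ℕ) (x : Ix n → Fin n) (p : Fin n × Fin n) : Prop :=
  ∃ k, Nat.size (x (Sum.inl (p.1, k))).1 + Nat.size (x (Sum.inr (p.2, k))).1 ≤ τ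

theorem card_badPair (τ : ℕ) (hn : 0 < n) (hτ : 8 * ((τ + 1) * 2 ^ τ) ≤ n) (p : Fin n × Fin n)
    [DecidablePred fun x : Ix n → Fin n => BadPair τ x p] :
    8 * (#(univ.filter (fun x : Ix n → Fin n => BadPair τ x p)) : ℝ) ≤
      (n : ℝ) ^ Fintype.card (Ix n) := by
  classical
  have h1 : univ.filter (fun x : Ix n → Fin n => BadPair τ x p) ⊆
      (univ : Finset (Fin n)).biUnion (fun k => (range (τ + 1)).biUnion (fun s =>
        univ.filter (fun x : Ix n → Fin n => x (Sum.inl (p.1, k)) ∈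
          univ.filter (fun r : Fin n => r.1 < 2 ^ s) ∧ x (Sum.inr (p.2, k)) ∈
          univ.filter (fun r : Fin n => r.1 < 2 ^ (τ - s))))) := by
    intro x hx
    obtain ⟨k, hk⟩ := (mem_filter.1 hx).2
    simp only [mem_biUnion, mem_univ, true_and, mem_range, mem_filter]
    refine ⟨k, Nat.size (x (Sum.inl (p.1, k))).1, by omega, Nat.lt_size_self _, ?_⟩
    apply Nat.size_le.1
    omega
  have hn' : (0 : ℝ) < n := by exact_mod_cast hn
  have hlt : ∀ s : ℕ, (#(univ.filter (fun r : Fin n => r.1 < 2 ^ s)) : ℝ) ≤ 2 ^ s := by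
    intro s
    have : #(univ.filter (fun r : Fin n => r.1 < 2 ^ s)) ≤ 2 ^ s := by
      have h2 : (univ.filter (fun r : Fin n => r.1 < 2 ^ s)).map Fin.valEmbedding ⊆
          range (2 ^ s) := by
        intro r hr
        obtain ⟨r', hr', rfl⟩ := mem_map.1 hr
        exact mem_range.2 (mem_filter.1 hr').2
      have h3 := card_le_card h2
      rwa [card_map, card_range] at h3
    exact_mod_cast this
  set N : ℝ := (n : ℝ) ^ Fintype.card (Ix n) with hN
  have hN0 : 0 ≤ N := by positivity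
  have h2 : ∀ (k : Fin n), ∀ s ∈ range (τ + 1), (#(univ.filter (fun x : Ix n → Fin n =>
          x (Sum.inl (p.1, k)) ∈ univ.filter (fun r : Fin n => r.1 < 2 ^ s) ∧
          x (Sum.inr (p.2, k)) ∈ univ.filter (fun r : Fin n => r.1 < 2 ^ (τ - s)))) : ℝ) ≤
          2 ^ τ / (n * n) * N := by
    intro k s hs
    rw [card_two n hn _ _ (by simp)]
    apply mul_le_mul_of_nonneg_right _ hN0
    have h3 := hlt s
    have h4 := hlt (τ - s)
    calc _ ≤ ((2 : ℝ) ^ s / n) * (2 ^ (τ - s) / n) := by gcongr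
      _ = (2 ^ s * 2 ^ (τ - s)) / (n * n) := by field_simp
      _ = 2 ^ τ / (n * n) := by
          rw [← pow_add]
          congr 2
          have := mem_range.1 hs
          omega
  have h3 : (#(univ.filter (fun x : Ix n → Fin n => BadPair τ x p)) : ℝ) ≤
      n * ((τ + 1 : ℕ) * (2 ^ τ / (n * n) * N)) := by
    calc (#(univ.filter (fun x : Ix n → Fin n => BadPair τ x p)) : ℝ)
        ≤ ((∑ k : Fin n, ∑ s ∈ range (τ + 1), #(univ.filter (fun x : Ix n → Fin n =>
          x (Sum.inl (p.1, k)) ∈ univ.filter (fun r : Fin n => r.1 < 2 ^ s) ∧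
          x (Sum.inr (p.2, k)) ∈ univ.filter (fun r : Fin n => r.1 < 2 ^ (τ - s)))) : ℕ) : ℝ) := by
          have := (card_le_card h1).trans (card_biUnion_le.trans
            (sum_le_sum fun k _ => card_biUnion_le))
          exact_mod_cast this
      _ = ∑ k : Fin n, ∑ s ∈ range (τ + 1), (#(univ.filter (fun x : Ix n → Fin n =>
          x (Sum.inl (p.1, k)) ∈ univ.filter (fun r : Fin n => r.1 < 2 ^ s) ∧
          x (Sum.inr (p.2, k)) ∈ univ.filter (fun r : Fin n => r.1 < 2 ^ (τ - s)))) : ℝ) := by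
          push_cast; rfl
      _ ≤ ∑ k : Fin n, ∑ s ∈ range (τ + 1), (2 ^ τ / (n * n) * N) :=
          sum_le_sum fun k _ => sum_le_sum fun s hs => h2 k s hs
      _ = _ := by
          rw [sum_const, sum_const, card_univ, card_range, Fintype.card_fin, nsmul_eq_mul,
            nsmul_eq_mul]
  have h4 : (8 : ℝ) * ((τ + 1 : ℕ) * 2 ^ τ) ≤ n := by exact_mod_cast hτ
  calc 8 * (#(univ.filter (fun x : Ix n → Fin n => BadPair τ x p)) : ℝ)
      ≤ 8 * (n * ((τ + 1 : ℕ) * (2 ^ τ / (n * n) * N))) := by linarith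
    _ = (8 * ((τ + 1 : ℕ) * 2 ^ τ)) / n * N := by field_simp
    _ ≤ n / n * N := by gcongr
    _ = N := by rw [div_self hn'.ne', one_mul]

/-- Few inputs have many bad pairs. -/
theorem card_many_bad (τ : ℕ) (hn : 0 < n) (hτ : 8 * ((τ + 1) * 2 ^ τ) ≤ n)
    [∀ x : Ix n → Fin n, DecidablePred fun p => BadPair τ x p] :
    4 * (#(univ.filter (fun x : Ix n → Fin n =>
      n ^ 2 < 2 * #(univ.filter (fun p => BadPair τ x p)))) : ℝ) ≤
      (n : ℝ) ^ Fintype.card (Ix n) := by
  classical
  set W := univ.filter (fun x : Ix n → Fin n =>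
      n ^ 2 < 2 * #(univ.filter (fun p => BadPair τ x p))) with hW
  have h1 : ∑ x : Ix n → Fin n, #(univ.filter (fun p => BadPair τ x p)) =
      ∑ p : Fin n × Fin n, #(univ.filter (fun x : Ix n → Fin n => BadPair τ x p)) := by
    simp only [Finset.card_filter]
    exact sum_comm
  have h2 : #W * n ^ 2 ≤ 2 * ∑ x : Ix n → Fin n, #(univ.filter (fun p => BadPair τ x p)) := by
    calc #W * n ^ 2 = ∑ x ∈ W, n ^ 2 := by simp
      _ ≤ ∑ x ∈ W, 2 * #(univ.filter (fun p => BadPair τ x p)) :=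
          sum_le_sum fun x hx => (mem_filter.1 hx).2.le
      _ ≤ ∑ x : Ix n → Fin n, 2 * #(univ.filter (fun p => BadPair τ x p)) :=
          sum_le_sum_of_subset (subset_univ _)
      _ = _ := (mul_sum _ _ _).symm
  have hn' : (0 : ℝ) < n := by exact_mod_cast hn
  set N : ℝ := (n : ℝ) ^ Fintype.card (Ix n) with hN
  have h3 : 8 * (∑ p : Fin n × Fin n,
      (#(univ.filter (fun x : Ix n → Fin n => BadPair τ x p)) : ℝ)) ≤ (n : ℝ) ^ 2 * N := by
    rw [mul_sum]
    calc _ ≤ ∑ p : Fin n × Fin n, N := sum_le_sum fun p _ => card_badPair τ hn hτ p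
      _ = _ := by
        rw [sum_const, card_univ, Fintype.card_prod, Fintype.card_fin, nsmul_eq_mul]
        push_cast
        ring
  have h4 : (#W : ℝ) * (n : ℝ) ^ 2 ≤ 2 * ∑ p : Fin n × Fin n,
      (#(univ.filter (fun x : Ix n → Fin n => BadPair τ x p)) : ℝ) := by
    rw [h1] at h2
    exact_mod_cast h2
  have h5 : (4 * (#W : ℝ)) * (n : ℝ) ^ 2 ≤ N * (n : ℝ) ^ 2 := by linarith
  exact le_of_mul_le_mul_right h5 (by positivity)

end Pool.Agent.H537R2.Apsp
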