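import Pool.Agent.H537R2.Apsp.Defs

/-!
# The adversary argument for blocks of steps, and the decomposition into blocks
-/

set_option linter.unusedSectionVars false

namespace Pool.Agent.H537R2.Apsp

open Finset

namespace Prog

variable {σ ι R α : Type} (P : Prog σ ι R α)

/-- The state reached from the state `s` at time `t` after a given number of steps, on the input
`y`. -/
def run (y : ι → R) : ℕ → σ → ℕ → σ
  | _, s, 0 => s
  | t, s, k + 1 => run y (t + 1) (P.next t s (y (P.query t s))) k

theorem outs_add (y : ι → R) : ∀ (a b t : ℕ) (s : σ),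
    P.outs y t s (a + b) = P.outs y t s a ∪ P.outs y (t + a) (P.run y t s a) b
  | 0, b, t, s => by simp [outs, run]
  | a + 1, b, t, s => by
    rw [show a + 1 + b = (a + b) + 1 by ring]
    simp only [outs, run]
    rw [outs_add y a b (t + 1), Set.union_assoc, show t + 1 + a = t + (a + 1) by ring]

/-- The set of emitted outputs is finite, of size at most the number of steps. -/
theorem exists_finset (y : ι → R) [DecidableEq α] : ∀ (k t : ℕ) (s : σ),
    ∃ F : Finset α, (F : Set α) = P.outs y t s k ∧ #F ≤ k
  | 0, t, s => ⟨∅, by simp [outs]⟩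
  | k + 1, t, s => by
    obtain ⟨F, hF, hc⟩ := exists_finset y k (t + 1) (P.next t s (y (P.query t s)))
    refine ⟨(P.emit t s (y (P.query t s))).toFinset ∪ F, ?_, ?_⟩
    · simp only [outs, coe_union, hF]
      congr 1
      ext a
      simp [Option.mem_toFinset, eq_comm]
    · refine (card_union_le _ _).trans ?_
      have : #((P.emit t s (y (P.query t s))).toFinset) ≤ 1 := by
        cases P.emit t s (y (P.query t s)) <;> simp
      omega

/-- The inputs which agree with `ρ` on `Q`. -/
def cube {κ R₀ : Type} [Fintype κ] [DecidableEq κ] [Fintype R₀] [DecidableEq R₀]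
    (Q : Finset κ) (ρ : κ → R₀) : Finset (κ → R₀) := univ.filter (fun x => ∀ j ∈ Q, x j = ρ j)

/-- The adversary argument for a short block of steps. -/
theorem block {κ R₀ : Type} [Fintype κ] [DecidableEq κ] [Fintype R₀] [DecidableEq R₀]
    (src : ι → Option κ) (c : ι → R) (f : ι → R₀ → R) (inp : (κ → R₀) → ι → R)
    (hn : ∀ x i, src i = none → inp x i = c i)
    (hs : ∀ x i j, src i = some j → inp x i = f i (x j))
    (Suc : Set α → (κ → R₀) → Prop) (D : ℕ) (β : ℝ)
    (hleaf : ∀ (Q : Finset κ) (ρ : κ → R₀) (E : Set α), #Q ≤ D →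
      (Nat.card {x : κ → R₀ // (∀ j ∈ Q, x j = ρ j) ∧ Suc E x} : ℝ) ≤
        β * Nat.card {x : κ → R₀ // ∀ j ∈ Q, x j = ρ j}) :
    ∀ (k t : ℕ) (s : σ) (Q : Finset κ) (ρ : κ → R₀) (E : Set α), #Q + k ≤ D →
      (Nat.card {x : κ → R₀ // (∀ j ∈ Q, x j = ρ j) ∧ Suc (E ∪ P.outs (inp x) t s k) x} : ℝ) ≤
        β * Nat.card {x : κ → R₀ // ∀ j ∈ Q, x j = ρ j}
  | 0, t, s, Q, ρ, E, h => by
    have := hleaf Q ρ E (by omega)
    simpa [outs] using this
  | k + 1, t, s, Q, ρ, E, h => by
    cases hq : src (P.query t s) with
    | none =>
      have ih := block src c f inp hn hs Suc D β hleaf k (t + 1)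
        (P.next t s (c (P.query t s))) Q ρ
        (E ∪ {a | P.emit t s (c (P.query t s)) = some a}) (by omega)
      have heq : ∀ x, (E ∪ P.outs (inp x) t s (k + 1)) =
          (E ∪ {a | P.emit t s (c (P.query t s)) = some a}) ∪
            P.outs (inp x) (t + 1) (P.next t s (c (P.query t s))) k := by
        intro x
        simp only [outs, hn x _ hq, Set.union_assoc]
      simp only [heq]
      exact ih
    | some j =>
      by_cases hj : j ∈ Q
      · have ih := block src c f inp hn hs Suc D β hleaf k (t + 1)
          (P.next t s (f (P.query t s) (ρ j))) Q ρ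
          (E ∪ {a | P.emit t s (f (P.query t s) (ρ j)) = some a}) (by omega)
        refine le_trans ?_ ih
        norm_cast
        have hfin : Finite {x : κ → R₀ // (∀ j ∈ Q, x j = ρ j) ∧
            Suc ((E ∪ {a | P.emit t s (f (P.query t s) (ρ j)) = some a}) ∪
            P.outs (inp x) (t + 1) (P.next t s (f (P.query t s) (ρ j))) k) x} := inferInstance
        refine Nat.card_le_card_of_injective (fun x => ⟨x.1, x.2.1, ?_⟩) ?_
        · have h2 := x.2.2
          have hx : x.1 j = ρ j := x.2.1 j hj
          simp only [outs, hs x.1 _ j hq, hx] at h2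
          rwa [Set.union_assoc]
        · intro x x' hxx
          exact Subtype.ext (congrArg (fun z => z.1) hxx)
      · have hcard : #(insert j Q) = #Q + 1 := card_insert_of_notMem hj
        have hagree : ∀ (x : κ → R₀) (r : R₀), (∀ i ∈ insert j Q, x i = Function.update ρ j r i) ↔
            (∀ i ∈ Q, x i = ρ i) ∧ x j = r := by
          intro x r
          constructor
          · intro hx
            refine ⟨fun i hi => ?_, ?_⟩
            · have hij : i ≠ j := by rintro rfl; exact hj hi
              have := hx i (mem_insert_of_mem hi)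
              rwa [Function.update_of_ne hij] at this
            · have := hx j (mem_insert_self _ _)
              rwa [Function.update_self] at this
          · rintro ⟨h1, h2⟩ i hi
            rcases mem_insert.1 hi with h3 | h3
            · rw [h3, Function.update_self]; exact h2
            · have hij : i ≠ j := by
                intro h4
                rw [h4] at h3
                exact hj h3
              rw [Function.update_of_ne hij]
              exact h1 i h3
        have ih : ∀ r : R₀, (Nat.card {x : κ → R₀ // (∀ i ∈ insert j Q, x i =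
            Function.update ρ j r i) ∧ Suc ((E ∪ {a | P.emit t s (f (P.query t s) r) = some a}) ∪
            P.outs (inp x) (t + 1) (P.next t s (f (P.query t s) r)) k) x} : ℝ) ≤
            β * Nat.card {x : κ → R₀ // ∀ i ∈ insert j Q, x i = Function.update ρ j r i} := by
          intro r
          exact block src c f inp hn hs Suc D β hleaf k (t + 1) _ (insert j Q)
            (Function.update ρ j r) _ (by omega)
        have hsplit : ∀ G : (κ → R₀) → Prop, (Nat.card {x : κ → R₀ // (∀ i ∈ Q, x i = ρ i) ∧ G x}) =
            ∑ r : R₀, Nat.card {x : κ → R₀ // (∀ i ∈ insert j Q, x i =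
              Function.update ρ j r i) ∧ G x} := by
          intro G
          rw [← Nat.card_sigma]
          refine Nat.card_congr ⟨fun x => ⟨x.1 j, x.1, (hagree _ _).2 ⟨x.2.1, rfl⟩, x.2.2⟩,
            fun x => ⟨x.2.1, ((hagree _ _).1 x.2.2.1).1, x.2.2.2⟩, fun x => rfl, ?_⟩
          rintro ⟨r, x, hx, hG⟩
          have hr : x j = r := ((hagree _ _).1 hx).2
          subst hr
          rfl
        have e1 := hsplit (fun x => Suc (E ∪ P.outs (inp x) t s (k + 1)) x)
        have e2 := hsplit (fun _ => True)
        simp only [and_true] at e2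
        rw [e1, e2]
        push_cast
        rw [mul_sum]
        refine sum_le_sum fun r _ => ?_
        refine le_trans ?_ (ih r)
        norm_cast
        refine Nat.card_le_card_of_injective (fun x => ⟨x.1, x.2.1, ?_⟩) ?_
        · have h2 := x.2.2
          have hx : x.1 j = r := ((hagree _ _).1 x.2.1).2
          simp only [outs, hs x.1 _ j hq, hx] at h2
          rwa [Set.union_assoc]
        · intro x x' hxx
          exact Subtype.ext (congrArg (fun z => z.1) hxx)

/-- If many marked labels are emitted in total, then many are emitted in one of the blocks. -/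
theorem exists_block (y : ι → R)
    (good : Set α → Prop) (hgood : ∀ E F, good (E ∪ F) → good E ∧ good F)
    (cnt : Set α → ℕ) (hcnt : ∀ E F, cnt (E ∪ F) ≤ cnt E + cnt F) (L K : ℕ) :
    ∀ (B t : ℕ) (s : σ) (T : ℕ), T ≤ (B + 1) * L → (B + 1) * K ≤ cnt (P.outs y t s T) →
      good (P.outs y t s T) →
      ∃ i < B + 1, ∃ s' : σ, good (P.outs y (t + i * L) s' (min L (T - i * L))) ∧
        K ≤ cnt (P.outs y (t + i * L) s' (min L (T - i * L))) := by
  intro B
  have hsmall : ∀ (B t : ℕ) (s : σ) (T : ℕ), T ≤ L → (B + 1) * K ≤ cnt (P.outs y t s T) →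
      good (P.outs y t s T) →
      ∃ i < B + 1, ∃ s' : σ, good (P.outs y (t + i * L) s' (min L (T - i * L))) ∧
        K ≤ cnt (P.outs y (t + i * L) s' (min L (T - i * L))) := by
    intro B t s T hT hc hg
    refine ⟨0, by omega, s, ?_, ?_⟩
    · simpa [min_eq_right hT] using hg
    · have h1 : K ≤ (B + 1) * K := Nat.le_mul_of_pos_left _ (by omega)
      simpa [min_eq_right hT] using h1.trans hc
  induction B with
  | zero => intro t s T hT hc hg; exact hsmall 0 t s T (by simpa using hT) hc hg
  | succ B ih =>
    intro t s T hT hc hg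
    rcases le_total T L with h | h
    · exact hsmall (B + 1) t s T h hc hg
    · obtain ⟨T', rfl⟩ := Nat.exists_eq_add_of_le h
      rw [outs_add] at hc hg
      obtain ⟨g1, g2⟩ := hgood _ _ hg
      by_cases h1 : K ≤ cnt (P.outs y t s L)
      · refine ⟨0, by omega, s, ?_, ?_⟩
        · simpa using g1
        · simpa using h1
      · have h2 := hc.trans (hcnt _ _)
        rw [Nat.add_mul, one_mul] at h2
        obtain ⟨i, hi, s', h4, h5⟩ := ih (t + L) (P.run y t s L) T'
          (by rw [Nat.add_mul, one_mul] at hT; omega) (by omega) g2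
        have e1 : t + L + i * L = t + (i + 1) * L := by ring
        have e2 : T' - i * L = L + T' - (i + 1) * L := by
          rw [Nat.add_mul, one_mul]; omega
        rw [e1, e2] at h4 h5
        exact ⟨i + 1, by omega, s', h4, h5⟩

end Prog

end Pool.Agent.H537R2.Apsp
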