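import Pool.Agent.H537R2.Apsp.Bad

/-!
# The main counting theorem for all-pairs shortest paths
-/

set_option linter.unusedSectionVars false
set_option maxHeartbeats 400000

namespace Pool.Agent.H537R2.Apsp

open Finset

section

variable {n N : ℕ}

/-- The outputs of the program. -/
abbrev Outp (N : ℕ) : Type := (Fin N × Fin N) × ℕ∞

/-- Everything emitted for the pairs (first layer, third layer) is correct. -/
def Right (hN : 3 * n ≤ N) (x : Ix n → Fin n) (E : Set (Outp N)) : Prop :=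
  ∀ i j v, ((vx hN i, vz hN j), v) ∈ E → v = dist (graphOf N x) (vx hN i) (vz hN j)

open Classical in
/-- The pairs for which a large distance is emitted. -/
noncomputable def claims (hN : 3 * n ≤ N) (τ : ℕ) (E : Set (Outp N)) : Finset (Fin n × Fin n) :=
  univ.filter (fun p => ∃ v, ((τ + 1 + 2 : ℕ) : ℕ∞) ≤ v ∧ ((vx hN p.1, vz hN p.2), v) ∈ E)

theorem claims_union (hN : 3 * n ≤ N) (τ : ℕ) (E F : Set (Outp N)) :
    #(claims hN τ (E ∪ F)) ≤ #(claims hN τ E) + #(claims hN τ F) := by
  classical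
  refine (card_le_card ?_).trans (card_union_le _ _)
  intro p hp
  obtain ⟨v, hv, h⟩ := (mem_filter.1 hp).2
  rw [mem_union]
  rcases h with h | h
  · exact Or.inl (mem_filter.2 ⟨mem_univ _, v, hv, h⟩)
  · exact Or.inr (mem_filter.2 ⟨mem_univ _, v, hv, h⟩)

theorem noHit_of_right (hN : 3 * n ≤ N) (τ : ℕ) (x : Ix n → Fin n) (E : Set (Outp N))
    (h : Right hN x E) : NoHit τ (fun p => x (Sum.inl p)) (fun p => x (Sum.inr p))
      (claims hN τ E) := by
  classical
  intro p hp k
  obtain ⟨v, hv, hE⟩ := (mem_filter.1 hp).2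
  have h1 := h _ _ _ hE
  rw [h1] at hv
  exact (le_dist_iff x hN p.1 p.2 (τ + 1)).1 hv k

/-- The event considered for a block of steps. -/
def Suc (hN : 3 * n ≤ N) (τ sm y : ℕ) (E : Set (Outp N)) (x : Ix n → Fin n) : Prop :=
  Typ τ sm (fun p => x (Sum.inl p)) ∧ Typ τ sm (fun p => x (Sum.inr p)) ∧ Right hN x E ∧
    2 * y ^ 2 ≤ #(claims hN τ E)

variable {σ : Type} (P : Prog σ (Fin N × Fin N) ℕ∞ (Outp N))

theorem block_bound (hN : 3 * n ≤ N) {τ sm : ℕ} (hsm : sm ≤ τ) (hτ : 3 ≤ τ)
    (hn : 2 ^ (sm + 1) ≤ n) (y k t : ℕ) (s : σ) (hk : k ≤ 2 ^ (τ - 3) * y) :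
    (Nat.card {x : Ix n → Fin n // Suc hN τ sm y (P.outs (graphOf N x) t s k) x} : ℝ) ≤
      beta n n τ sm y * Nat.card (Ix n → Fin n) := by
  classical
  have hn0 : 0 < n := lt_of_lt_of_le (by positivity) hn
  have h := Prog.block P (src n N) (fun _ => ⊤) (fun _ r => ((Nat.size r.1 + 1 : ℕ) : ℕ∞))
    (fun x => graphOf N x)
    (by intro x i hi; simp only [graphOf, hi]) (by intro x i j hi; simp only [graphOf, hi])
    (Suc hN τ sm y) (2 ^ (τ - 3) * y) (beta n n τ sm y)
    (by
      intro Q ρ E hQ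
      by_cases hE : 2 * y ^ 2 ≤ #(claims hN τ E)
      · have h1 := leaf_bound hsm hτ hn hn0 Q ρ y hQ (claims hN τ E) hE
        refine le_trans ?_ h1
        norm_cast
        refine Nat.card_le_card_of_injective (fun x => ⟨x.1, x.2.1, x.2.2.1, x.2.2.2.1,
          noHit_of_right hN τ x.1 E x.2.2.2.2.1⟩) ?_
        intro x x' hxx
        exact Subtype.ext (congrArg (fun z => z.1) hxx)
      · have h1 : Nat.card {x : Ix n → Fin n // (∀ j ∈ Q, x j = ρ j) ∧ Suc hN τ sm y E x} = 0 := by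
          rw [Nat.card_eq_zero]
          left
          constructor
          rintro ⟨x, _, hx⟩
          exact hE hx.2.2.2
        rw [h1]
        have : (0 : ℝ) ≤ beta n n τ sm y := (Real.exp_pos _).le
        push_cast
        positivity)
    k t s ∅ (fun _ => ⟨0, hn0⟩) ∅ (by simpa using hk)
  have e1 : Nat.card {x : Ix n → Fin n // ∀ j ∈ (∅ : Finset (Ix n)), x j = ⟨0, hn0⟩} =
      Nat.card (Ix n → Fin n) :=
    Nat.card_congr (Equiv.subtypeUnivEquiv (by intro x j hj; simp at hj))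
  rw [e1] at h
  refine le_trans ?_ h
  norm_cast
  refine Nat.card_le_card_of_injective (fun x => ⟨x.1, by simp, by
    simpa using x.2⟩) ?_
  intro x x' hxx
  exact Subtype.ext (congrArg (fun z => z.1) hxx)

/-- Either the input is exceptional, or some block is successful. -/
theorem some_block (hN : 3 * n ≤ N) {τ sm : ℕ} (y B T : ℕ)
    (hT : T ≤ (B + 1) * (2 ^ (τ - 3) * y)) (hB : 2 * ((B + 1) * (2 * y ^ 2)) ≤ n ^ 2)
    (x : Ix n → Fin n) (hx : SolvesAPSP P T (graphOf N x))
    (h1 : Typ τ sm (fun p => x (Sum.inl p))) (h2 : Typ τ sm (fun p => x (Sum.inr p)))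
    [DecidablePred fun p => BadPair τ x p]
    (h3 : 2 * #(univ.filter (fun p => BadPair τ x p)) ≤ n ^ 2) :
    ∃ i < B + 1, ∃ s : σ, Suc hN τ sm y (P.outs (graphOf N x) (0 + i * (2 ^ (τ - 3) * y)) s
      (min (2 ^ (τ - 3) * y) (T - i * (2 ^ (τ - 3) * y)))) x := by
  classical
  have hright : Right hN x (P.outs (graphOf N x) 0 P.init T) := by
    intro i j v hv
    exact (hx _ _ _).1 hv
  have hcl : (univ.filter (fun p => ¬ BadPair τ x p)) ⊆
      claims hN τ (P.outs (graphOf N x) 0 P.init T) := by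
    intro p hp
    have hp' := (mem_filter.1 hp).2
    refine mem_filter.2 ⟨mem_univ _, dist (graphOf N x) (vx hN p.1) (vz hN p.2), ?_,
      (hx _ _ _).2 rfl⟩
    rw [le_dist_iff]
    intro k
    by_contra hcon
    apply hp'
    exact ⟨k, by omega⟩
  have hcount : (B + 1) * (2 * y ^ 2) ≤ #(claims hN τ (P.outs (graphOf N x) 0 P.init T)) := by
    have h4 := card_le_card hcl
    have h5 := Finset.card_filter_add_card_filter_not (s := (univ : Finset (Fin n × Fin n)))
      (fun p => BadPair τ x p)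
    rw [card_univ, Fintype.card_prod, Fintype.card_fin] at h5
    have h6 : n * n = n ^ 2 := by ring
    omega
  obtain ⟨i, hi, s, hg, hc⟩ := Prog.exists_block P (graphOf N x) (Right hN x)
    (by
      intro E F h
      exact ⟨fun i j v hv => h i j v (Or.inl hv), fun i j v hv => h i j v (Or.inr hv)⟩)
    (fun E => #(claims hN τ E)) (claims_union hN τ) (2 ^ (τ - 3) * y) (2 * y ^ 2) B 0 P.init T hT
    hcount hright
  exact ⟨i, hi, s, h1, h2, hg, hc⟩

/-- The main counting theorem. -/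
theorem core [Fintype σ] (ℓ : ℕ) (hN : 3 * 2 ^ ℓ ≤ N) {τ sm : ℕ} (hsm : sm ≤ τ) (hτ : 8 ≤ τ)
    (hn : 2 ^ (sm + 1) ≤ 2 ^ ℓ) (hτn : 8 * ((τ + 1) * 2 ^ τ) ≤ 2 ^ ℓ)
    (hs : ℓ * 2 ^ sm ≤ 2 ^ (τ - 3)) (hs2 : sm + 1 ≤ 2 ^ (τ - 3)) (y B T : ℕ)
    (hT : T ≤ (B + 1) * (2 ^ (τ - 3) * y)) (hB : 2 * ((B + 1) * (2 * y ^ 2)) ≤ (2 ^ ℓ) ^ 2)
    (hβ : 8 * (((B + 1 : ℕ) : ℝ) * Fintype.card σ * beta (2 ^ ℓ) (2 ^ ℓ) τ sm y) ≤ 1) :
    2 * (Nat.card {x : Ix (2 ^ ℓ) → Fin (2 ^ ℓ) // SolvesAPSP P T (graphOf N x)} : ℝ) ≤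
      Nat.card (Ix (2 ^ ℓ) → Fin (2 ^ ℓ)) := by
  classical
  set n := 2 ^ ℓ with hn'
  have hn0 : 0 < n := by positivity
  have hτ1 : 8 * 2 ^ τ ≤ 2 ^ ℓ := by
    refine le_trans ?_ hτn
    apply Nat.mul_le_mul_left
    exact Nat.le_mul_of_pos_left _ (by omega)
  set A : ℝ := (Nat.card (Ix n → Fin n) : ℝ) with hA
  have hA' : A = (n : ℝ) ^ Fintype.card (Ix n) := by
    rw [hA, Nat.card_eq_fintype_card, Fintype.card_fun, Fintype.card_fin]
    push_cast; rfl
  have hcard : Fintype.card (Ix n) = n * n + n * n := by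
    simp [Ix]
  -- exceptional inputs
  have t0 := card_not_typ ℓ τ sm hτ hsm hτ1 hs hs2
  rw [← hn'] at t0
  rw [Nat.card_eq_fintype_card, Fintype.card_subtype] at t0
  have t1 : 16 * (#(univ.filter (fun x : Ix n → Fin n =>
      ¬ Typ τ sm (fun p => x (Sum.inl p)))) : ℝ) ≤ A := by
    have h1 : #(univ.filter (fun x : Ix n → Fin n => ¬ Typ τ sm (fun p => x (Sum.inl p)))) ≤
        #(univ.filter (fun b : Fin n × Fin n → Fin n => ¬ Typ τ sm b)) * n ^ (n * n) := by
      have h2 : n ^ (n * n) = #(univ : Finset (Fin n × Fin n → Fin n)) := by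
        rw [card_univ, Fintype.card_fun, Fintype.card_fin, Fintype.card_prod, Fintype.card_fin]
      rw [h2, ← card_product]
      apply Finset.card_le_card_of_injOn (fun x => (fun p => x (Sum.inl p), fun p => x (Sum.inr p)))
      · intro x hx
        simp only [coe_product, Set.mem_prod, mem_coe, mem_univ, and_true]
        exact mem_filter.2 ⟨mem_univ _, (mem_filter.1 hx).2⟩
      · intro x _ x' _ h
        funext j
        rcases j with p | p
        · exact congrFun (congrArg Prod.fst h) p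
        · exact congrFun (congrArg Prod.snd h) p
    have h3 : (#(univ.filter (fun x : Ix n → Fin n =>
        ¬ Typ τ sm (fun p => x (Sum.inl p)))) : ℝ) ≤
        #(univ.filter (fun b : Fin n × Fin n → Fin n => ¬ Typ τ sm b)) * (n : ℝ) ^ (n * n) := by
      exact_mod_cast h1
    rw [hA', hcard, pow_add]
    have h4 : (0 : ℝ) ≤ (n : ℝ) ^ (n * n) := by positivity
    nlinarith
  have t2 : 16 * (#(univ.filter (fun x : Ix n → Fin n =>
      ¬ Typ τ sm (fun p => x (Sum.inr p)))) : ℝ) ≤ A := by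
    have h1 : #(univ.filter (fun x : Ix n → Fin n => ¬ Typ τ sm (fun p => x (Sum.inr p)))) ≤
        #(univ.filter (fun b : Fin n × Fin n → Fin n => ¬ Typ τ sm b)) * n ^ (n * n) := by
      have h2 : n ^ (n * n) = #(univ : Finset (Fin n × Fin n → Fin n)) := by
        rw [card_univ, Fintype.card_fun, Fintype.card_fin, Fintype.card_prod, Fintype.card_fin]
      rw [h2, ← card_product]
      apply Finset.card_le_card_of_injOn (fun x => (fun p => x (Sum.inr p), fun p => x (Sum.inl p)))
      · intro x hx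
        simp only [coe_product, Set.mem_prod, mem_coe, mem_univ, and_true]
        exact mem_filter.2 ⟨mem_univ _, (mem_filter.1 hx).2⟩
      · intro x _ x' _ h
        funext j
        rcases j with p | p
        · exact congrFun (congrArg Prod.snd h) p
        · exact congrFun (congrArg Prod.fst h) p
    have h3 : (#(univ.filter (fun x : Ix n → Fin n =>
        ¬ Typ τ sm (fun p => x (Sum.inr p)))) : ℝ) ≤
        #(univ.filter (fun b : Fin n × Fin n → Fin n => ¬ Typ τ sm b)) * (n : ℝ) ^ (n * n) := by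
      exact_mod_cast h1
    rw [hA', hcard, pow_add]
    have h4 : (0 : ℝ) ≤ (n : ℝ) ^ (n * n) := by positivity
    nlinarith
  have t3 := card_many_bad (n := n) τ hn0 hτn
  rw [← hA'] at t3
  -- blocks
  set D := 2 ^ (τ - 3) * y with hD
  have t4 : ∀ (i : ℕ) (s : σ), (#(univ.filter (fun x : Ix n → Fin n => Suc hN τ sm y
      (P.outs (graphOf N x) (0 + i * D) s (min D (T - i * D))) x)) : ℝ) ≤
      beta n n τ sm y * A := by
    intro i s
    have := block_bound P hN hsm (by omega) hn y (min D (T - i * D)) (0 + i * D) s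
      (min_le_left _ _)
    rw [Nat.card_eq_fintype_card, Fintype.card_subtype] at this
    exact this
  have hsub : univ.filter (fun x : Ix n → Fin n => SolvesAPSP P T (graphOf N x)) ⊆
      (univ.filter (fun x : Ix n → Fin n => ¬ Typ τ sm (fun p => x (Sum.inl p)))) ∪
      ((univ.filter (fun x : Ix n → Fin n => ¬ Typ τ sm (fun p => x (Sum.inr p)))) ∪
      ((univ.filter (fun x : Ix n → Fin n =>
        n ^ 2 < 2 * #(univ.filter (fun p => BadPair τ x p)))) ∪
      ((range (B + 1)).biUnion (fun i => (univ : Finset σ).biUnion (fun s =>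
        univ.filter (fun x : Ix n → Fin n => Suc hN τ sm y
      (P.outs (graphOf N x) (0 + i * D) s (min D (T - i * D))) x)))))) := by
    intro x hx
    have hx' := (mem_filter.1 hx).2
    simp only [mem_union, mem_biUnion, mem_range]
    by_cases c1 : Typ τ sm (fun p => x (Sum.inl p))
    · by_cases c2 : Typ τ sm (fun p => x (Sum.inr p))
      · by_cases c3 : 2 * #(univ.filter (fun p => BadPair τ x p)) ≤ n ^ 2
        · right; right; right
          obtain ⟨i, hi, s, h⟩ := some_block P hN y B T hT hB x hx' c1 c2 c3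
          exact ⟨i, hi, s, mem_univ _, mem_filter.2 ⟨mem_univ _, h⟩⟩
        · right; right; left
          exact mem_filter.2 ⟨mem_univ _, by omega⟩
      · right; left
        exact mem_filter.2 ⟨mem_univ _, c2⟩
    · left
      exact mem_filter.2 ⟨mem_univ _, c1⟩
  have h5 := (card_le_card hsub).trans ((card_union_le _ _).trans (Nat.add_le_add_left
    ((card_union_le _ _).trans (Nat.add_le_add_left ((card_union_le _ _).trans
    (Nat.add_le_add_left (card_biUnion_le.trans
    (sum_le_sum fun i _ => card_biUnion_le)) _)) _)) _))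
  have h6 : (#(univ.filter (fun x : Ix n → Fin n => SolvesAPSP P T (graphOf N x))) : ℝ) ≤
      (#(univ.filter (fun x : Ix n → Fin n => ¬ Typ τ sm (fun p => x (Sum.inl p)))) : ℝ) +
      ((#(univ.filter (fun x : Ix n → Fin n => ¬ Typ τ sm (fun p => x (Sum.inr p)))) : ℝ) +
      ((#(univ.filter (fun x : Ix n → Fin n =>
        n ^ 2 < 2 * #(univ.filter (fun p => BadPair τ x p)))) : ℝ) +
      ∑ i ∈ range (B + 1), ∑ s : σ, (#(univ.filter (fun x : Ix n → Fin n => Suc hN τ sm y
      (P.outs (graphOf N x) (0 + i * D) s (min D (T - i * D))) x)) : ℝ))) := by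
    exact_mod_cast h5
  have h7 : ∑ i ∈ range (B + 1), ∑ s : σ, (#(univ.filter (fun x : Ix n → Fin n =>
      Suc hN τ sm y (P.outs (graphOf N x) (0 + i * D) s (min D (T - i * D))) x)) : ℝ) ≤
      ((B + 1 : ℕ) : ℝ) * Fintype.card σ * beta n n τ sm y * A := by
    calc _ ≤ ∑ i ∈ range (B + 1), ∑ s : σ, beta n n τ sm y * A :=
          sum_le_sum fun i _ => sum_le_sum fun s _ => t4 i s
      _ = _ := by
          rw [sum_const, sum_const, card_range, card_univ, nsmul_eq_mul, nsmul_eq_mul]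
          ring
  have hA0 : 0 ≤ A := Nat.cast_nonneg _
  have h8 : 8 * (((B + 1 : ℕ) : ℝ) * Fintype.card σ * beta n n τ sm y * A) ≤ A := by
    calc _ = 8 * (((B + 1 : ℕ) : ℝ) * Fintype.card σ * beta n n τ sm y) * A := by ring
      _ ≤ 1 * A := mul_le_mul_of_nonneg_right hβ hA0
      _ = A := one_mul A
  rw [Nat.card_eq_fintype_card, Fintype.card_subtype]
  linarith

end

end Pool.Agent.H537R2.Apsp
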