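import Mathlib

/-!
# Definitions: all-pairs shortest paths and non-uniform algorithms with bounded memory
-/

namespace Pool.Agent.H537R2.Apsp

/-- A non-uniform algorithm with set of memory states `σ`; the input consists of items indexed by
`ι`, with values in `R`, and the outputs are elements of `α`.  At time `t` in state `s` it reads the
item `query t s` of the input, and, depending on the value read, it changes its state to
`next t s` and it may emit one output `emit t s`. -/
structure Prog (σ ι R α : Type) where
  /-- the initial state -/
  init : σ
  /-- the item of the input which is read -/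
  query : ℕ → σ → ι
  /-- the next state -/
  next : ℕ → σ → R → σ
  /-- the output emitted in this step, if any -/
  emit : ℕ → σ → R → Option α

/-- The set of all outputs emitted, starting from the state `s` at time `t`, in a given number of
steps, on the input `y`. -/
def Prog.outs {σ ι R α : Type} (P : Prog σ ι R α) (y : ι → R) : ℕ → σ → ℕ → Set α
  | _, _, 0 => ∅
  | t, s, k + 1 => {a | P.emit t s (y (P.query t s)) = some a} ∪
      outs P y (t + 1) (P.next t s (y (P.query t s))) k

/-- A weighted directed graph with vertices `0, ..., n - 1`, given by its matrix of weights; the
weight `⊤` means that there is no edge. -/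
abbrev Graph (n : ℕ) : Type := Fin n × Fin n → ℕ∞

/-- The total weight of the walk with the given list of vertices. -/
def walkWeight {n : ℕ} (w : Graph n) : List (Fin n) → ℕ∞
  | [] => 0
  | [_] => 0
  | a :: b :: l => w (a, b) + walkWeight w (b :: l)

/-- The distance from `u` to `v`: the minimal total weight of a walk from `u` to `v`. -/
noncomputable def dist {n : ℕ} (w : Graph n) (u v : Fin n) : ℕ∞ :=
  ⨅ l : {l : List (Fin n) // l.head? = some u ∧ l.getLast? = some v}, walkWeight w l.1

/-- The algorithm outputs within `T` steps all distances of the graph `w`: the set of all triples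
`((u, v), d)` emitted in `T` steps is the set of all `((u, v), dist w u v)`. -/
def SolvesAPSP {σ : Type} {n : ℕ}
    (P : Prog σ (Fin n × Fin n) ℕ∞ ((Fin n × Fin n) × ℕ∞)) (T : ℕ) (w : Graph n) : Prop :=
  ∀ u v d, ((u, v), d) ∈ P.outs w 0 P.init T ↔ d = dist w u v

end Pool.Agent.H537R2.Apsp
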