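import Pool.Agent.H537R2.Apsp.Block

/-!
# Layered graphs: distances are min-plus products
-/

set_option linter.unusedSectionVars false

namespace Pool.Agent.H537R2.Apsp

open Finset

/-- The index set of the entries of two square matrices. -/
abbrev Ix (n : ℕ) : Type := (Fin n × Fin n) ⊕ (Fin n × Fin n)

section

variable {n N : ℕ}

/-- Which entry of the two matrices determines the weight of a pair of vertices. -/
def src (n N : ℕ) (p : Fin N × Fin N) : Option (Ix n) :=
  if h : p.1.1 < n ∧ n ≤ p.2.1 ∧ p.2.1 < 2 * n then
    some (Sum.inl (⟨p.1.1, h.1⟩, ⟨p.2.1 - n, by omega⟩))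
  else if h : n ≤ p.1.1 ∧ p.1.1 < 2 * n ∧ 2 * n ≤ p.2.1 ∧ p.2.1 < 3 * n then
    some (Sum.inr (⟨p.2.1 - 2 * n, by omega⟩, ⟨p.1.1 - n, by omega⟩))
  else none

/-- The layered graph of two matrices: the weights are the bit lengths of the entries, plus one. -/
noncomputable def graphOf (N : ℕ) {M : ℕ} (x : Ix n → Fin M) : Graph N := fun p =>
  match src n N p with
  | none => ⊤
  | some j => ((Nat.size (x j).1 + 1 : ℕ) : ℕ∞)

variable {M : ℕ} (x : Ix n → Fin M)

/-- The vertex of the first layer. -/
def vx (hN : 3 * n ≤ N) (i : Fin n) : Fin N := ⟨i.1, by omega⟩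

/-- The vertex of the second layer. -/
def vy (hN : 3 * n ≤ N) (i : Fin n) : Fin N := ⟨n + i.1, by omega⟩

/-- The vertex of the third layer. -/
def vz (hN : 3 * n ≤ N) (i : Fin n) : Fin N := ⟨2 * n + i.1, by omega⟩

theorem graphOf_xy (hN : 3 * n ≤ N) (i k : Fin n) :
    graphOf N x (vx hN i, vy hN k) = ((Nat.size (x (Sum.inl (i, k))).1 + 1 : ℕ) : ℕ∞) := by
  have h : src n N (vx hN i, vy hN k) = some (Sum.inl (i, k)) := by
    unfold src vx vy
    rw [dif_pos ⟨i.2, by simp, by simp; omega⟩]
    simp
  unfold graphOf
  rw [h]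

theorem graphOf_yz (hN : 3 * n ≤ N) (k j : Fin n) :
    graphOf N x (vy hN k, vz hN j) = ((Nat.size (x (Sum.inr (j, k))).1 + 1 : ℕ) : ℕ∞) := by
  have h : src n N (vy hN k, vz hN j) = some (Sum.inr (j, k)) := by
    unfold src vy vz
    rw [dif_neg (by simp), dif_pos ⟨by simp, by simp; omega, by simp, by simp; omega⟩]
    simp
  unfold graphOf
  rw [h]

theorem graphOf_x (hN : 3 * n ≤ N) (i : Fin n) (v : Fin N) (hv : ∀ k, v ≠ vy hN k) :
    graphOf N x (vx hN i, v) = ⊤ := by
  have h : src n N (vx hN i, v) = none := by
    unfold src vx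
    rw [dif_neg, dif_neg]
    · rintro ⟨h1, _⟩
      simp only at h1
      omega
    · rintro ⟨_, h2, h3⟩
      simp only at h2 h3
      apply hv ⟨v.1 - n, by omega⟩
      apply Fin.ext
      simp only [vy]
      omega
  unfold graphOf
  rw [h]

theorem graphOf_y (hN : 3 * n ≤ N) (k : Fin n) (v : Fin N) (hv : ∀ j, v ≠ vz hN j) :
    graphOf N x (vy hN k, v) = ⊤ := by
  have h : src n N (vy hN k, v) = none := by
    unfold src vy
    rw [dif_neg, dif_neg]
    · rintro ⟨_, _, h2, h3⟩
      simp only at h2 h3
      apply hv ⟨v.1 - 2 * n, by omega⟩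
      apply Fin.ext
      simp only [vz]
      omega
    · rintro ⟨h1, _⟩
      simp only at h1
      omega
  unfold graphOf
  rw [h]

theorem graphOf_z (hN : 3 * n ≤ N) (j : Fin n) (v : Fin N) :
    graphOf N x (vz hN j, v) = ⊤ := by
  have h : src n N (vz hN j, v) = none := by
    unfold src vz
    rw [dif_neg, dif_neg]
    · rintro ⟨_, h2, _⟩
      simp only at h2
      omega
    · rintro ⟨h1, _⟩
      simp only at h1
      omega
  unfold graphOf
  rw [h]

/-- The weights of layered graphs are small. -/
theorem graphOf_le (p : Fin N × Fin N) {ℓ : ℕ} (hM : M ≤ 2 ^ ℓ) :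
    graphOf N x p = ⊤ ∨ (1 ≤ graphOf N x p ∧ graphOf N x p ≤ ((ℓ + 1 : ℕ) : ℕ∞)) := by
  unfold graphOf
  cases src n N p with
  | none => left; rfl
  | some j =>
    right
    simp only
    have h : Nat.size (x j).1 ≤ ℓ := Nat.size_le.2 ((x j).2.trans_le hM)
    constructor
    · have : (1 : ℕ) ≤ Nat.size (x j).1 + 1 := by omega
      exact_mod_cast this
    · have : Nat.size (x j).1 + 1 ≤ ℓ + 1 := by omega
      exact_mod_cast this

/-- Distances between the first and the third layer. -/
theorem le_dist_iff (hN : 3 * n ≤ N) (i j : Fin n) (m : ℕ) :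
    ((m + 2 : ℕ) : ℕ∞) ≤ dist (graphOf N x) (vx hN i) (vz hN j) ↔
      ∀ k, m ≤ Nat.size (x (Sum.inl (i, k))).1 + Nat.size (x (Sum.inr (j, k))).1 := by
  unfold dist
  rw [le_iInf_iff]
  constructor
  · intro h k
    have h1 := h ⟨[vx hN i, vy hN k, vz hN j], by simp, by simp⟩
    simp only [walkWeight, graphOf_xy, graphOf_yz, add_zero] at h1
    have h2 : m + 2 ≤ Nat.size (x (Sum.inl (i, k))).1 + 1 +
        (Nat.size (x (Sum.inr (j, k))).1 + 1) := by exact_mod_cast h1
    omega
  · rintro h ⟨l, hl1, hl2⟩
    match l, hl1, hl2 with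
    | [], hl1, _ => simp at hl1
    | [u], hl1, hl2 =>
      exfalso
      simp only [List.head?_cons, Option.some.injEq] at hl1
      simp only [List.getLast?_singleton, Option.some.injEq] at hl2
      rw [hl1] at hl2
      have h3 := congrArg Fin.val hl2
      simp only [vx, vz] at h3
      omega
    | u :: v :: l', hl1, hl2 =>
      simp only [List.head?_cons, Option.some.injEq] at hl1
      subst hl1
      simp only [walkWeight]
      by_cases hv : ∃ k, v = vy hN k
      · obtain ⟨k, rfl⟩ := hv
        match l', hl2 with
        | [], hl2 =>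
          exfalso
          simp only [List.getLast?_cons_cons, List.getLast?_singleton, Option.some.injEq] at hl2
          have h3 := congrArg Fin.val hl2
          simp only [vy, vz] at h3
          omega
        | c :: l'', hl2 =>
          simp only [walkWeight]
          by_cases hc : ∃ j', c = vz hN j'
          · obtain ⟨j', rfl⟩ := hc
            match l'', hl2 with
            | [], hl2 =>
              simp only [List.getLast?_cons_cons, List.getLast?_singleton,
                Option.some.injEq] at hl2
              have h3 := congrArg Fin.val hl2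
              simp only [vz] at h3
              have h4 : j' = j := Fin.ext (by omega)
              subst h4
              simp only [walkWeight, graphOf_xy, graphOf_yz, add_zero]
              have h5 := h k
              have h6 : m + 2 ≤ Nat.size (x (Sum.inl (i, k))).1 + 1 +
                (Nat.size (x (Sum.inr (j', k))).1 + 1) := by omega
              exact_mod_cast h6
            | d :: l''', _ =>
              simp only [walkWeight, graphOf_z]
              simp
          · push Not at hc
            rw [graphOf_y x hN k c hc]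
            simp
      · push Not at hv
        rw [graphOf_x x hN i v hv]
        simp

end

end Pool.Agent.H537R2.Apsp
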