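import Pool.Agent.H537R2.Apsp.Layer

/-!
# The bound at the leaves for min-plus products
-/

set_option linter.unusedSectionVars false
set_option maxHeartbeats 400000

namespace Pool.Agent.H537R2.Apsp

open Finset

section

variable {n M : ℕ}

/-- Typical matrices: every set of `2 ^ s` rows has an entry below `2 ^ (τ - s)` in at least
`2 ^ (τ - 2)` columns. -/
def Typ (τ sm : ℕ) (b : Fin n × Fin n → Fin M) : Prop :=
  ∀ s ≤ sm, ∀ J : Finset (Fin n), #J = 2 ^ s →
    2 ^ (τ - 2) ≤ #(univ.filter (fun k => ∃ j ∈ J, (b (j, k)).1 < 2 ^ (τ - s)))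

/-- No sum for a pair of `P` is at most `τ`. -/
def NoHit (τ : ℕ) (a b : Fin n × Fin n → Fin M) (P : Finset (Fin n × Fin n)) : Prop :=
  ∀ p ∈ P, ∀ k, τ + 1 ≤ Nat.size (a (p.1, k)).1 + Nat.size (b (p.2, k)).1

theorem noHit_mono {τ : ℕ} {a b : Fin n × Fin n → Fin M} {P P' : Finset (Fin n × Fin n)}
    (h : P' ⊆ P) (hP : NoHit τ a b P) : NoHit τ a b P' := fun p hp k => hP p (h hp) k

theorem noHit_swap {τ : ℕ} {a b : Fin n × Fin n → Fin M} {P : Finset (Fin n × Fin n)}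
    (hP : NoHit τ a b P) : NoHit τ b a (P.image Prod.swap) := by
  intro p hp k
  obtain ⟨q, hq, rfl⟩ := mem_image.1 hp
  have := hP q hq k
  simp only [Prod.fst_swap, Prod.snd_swap]
  omega

theorem rowData {τ sm : ℕ} (hsm : sm ≤ τ) (hτ : 3 ≤ τ) (hn : 2 ^ (sm + 1) ≤ n)
    (b : Fin n × Fin n → Fin M) (hb : Typ τ sm b) (P Q : Finset (Fin n × Fin n))
    (hlight : ∀ p ∈ P, #(univ.filter (fun k => (p.1, k) ∈ Q)) ≤ 2 ^ (τ - 3)) (i : Fin n) :
    ∃ (e : ℕ) (H : Finset (Fin n)), (∀ k ∈ H, (i, k) ∉ Q) ∧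
      (∀ a : Fin n × Fin n → Fin M, NoHit τ a b P → ∀ k ∈ H, e ≤ (a (i, k)).1) ∧
      #(P.filter (fun p => p.1 = i)) * 2 ^ sm * 2 ^ (τ - 3) ≤ n * (#H * e) := by
  classical
  set Ji := univ.filter (fun j => (i, j) ∈ P) with hJi
  have hcard : #(P.filter (fun p => p.1 = i)) = #Ji := by
    symm
    apply Finset.card_bij (fun j _ => (i, j))
    · intro j hj
      simp only [hJi, mem_filter, mem_univ, true_and] at hj
      simp [hj]
    · intro j _ j' _ h
      exact congrArg Prod.snd h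
    · rintro ⟨p, q⟩ hp
      simp only [mem_filter] at hp
      obtain ⟨hp1, rfl⟩ := hp
      exact ⟨q, by simp [hJi, hp1], rfl⟩
  rcases Finset.eq_empty_or_nonempty Ji with h0 | hne
  · refine ⟨0, ∅, by simp, by simp, ?_⟩
    rw [hcard, h0]
    simp
  · have hpos : 0 < #Ji := card_pos.2 hne
    set s := min sm (Nat.log 2 #Ji) with hs
    have hs1 : s ≤ sm := min_le_left _ _
    have hs2 : 2 ^ s ≤ #Ji := (Nat.pow_le_pow_right (by norm_num) (min_le_right _ _)).trans
      (Nat.pow_log_le_self 2 hpos.ne')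
    obtain ⟨J, hJ, hJc⟩ := exists_subset_card_eq hs2
    have hT := hb s hs1 J hJc
    obtain ⟨j₀, hj₀⟩ := hne
    have hl := hlight (i, j₀) (by simpa [hJi] using hj₀)
    simp only at hl
    set H₀ := univ.filter (fun k => ∃ j ∈ J, (b (j, k)).1 < 2 ^ (τ - s)) with hH₀
    set K := univ.filter (fun k => (i, k) ∈ Q) with hK
    have hH : 2 ^ (τ - 3) ≤ #(H₀ \ K) := by
      have h1 := le_card_sdiff K H₀
      have h2 : 2 ^ (τ - 2) = 2 ^ (τ - 3) + 2 ^ (τ - 3) := by
        rw [show τ - 2 = (τ - 3) + 1 by omega, pow_succ]; ring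
      omega
    refine ⟨2 ^ s, H₀ \ K, ?_, ?_, ?_⟩
    · intro k hk hQ
      exact (mem_sdiff.1 hk).2 (by simp [hK, hQ])
    · intro a ha k hk
      by_contra hcon
      push Not at hcon
      have h1 := (mem_filter.1 (mem_sdiff.1 hk).1).2
      obtain ⟨j, hj, hjb⟩ := h1
      have h2 := ha (i, j) (by simpa [hJi] using hJ hj) k
      simp only at h2
      have h3 := Nat.size_le.2 hjb
      have h4 := Nat.size_le.2 hcon
      omega
    · rw [hcard]
      have h1 : #Ji * 2 ^ sm ≤ n * 2 ^ s := by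
        rcases le_total sm (Nat.log 2 #Ji) with h | h
        · rw [hs, min_eq_left h]
          apply Nat.mul_le_mul_right
          calc #Ji ≤ #(univ : Finset (Fin n)) := card_le_univ _
            _ = n := by simp
        · rw [hs, min_eq_right h]
          have h2 : #Ji < 2 ^ (Nat.log 2 #Ji + 1) := Nat.lt_pow_succ_log_self (by norm_num) _
          calc #Ji * 2 ^ sm ≤ 2 ^ (Nat.log 2 #Ji + 1) * 2 ^ sm := Nat.mul_le_mul_right _ h2.le
            _ = 2 ^ (sm + 1) * 2 ^ Nat.log 2 #Ji := by rw [pow_succ, pow_succ]; ring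
            _ ≤ n * 2 ^ Nat.log 2 #Ji := Nat.mul_le_mul_right _ hn
      calc #Ji * 2 ^ sm * 2 ^ (τ - 3) ≤ n * 2 ^ s * #(H₀ \ K) := Nat.mul_le_mul h1 hH
        _ = n * (#(H₀ \ K) * 2 ^ s) := by ring

theorem card_ge_le (M e : ℕ) (S : Finset (Fin M)) (hS : ∀ r ∈ S, e ≤ r.1) (hM : 0 < M) :
    (#S : ℝ) ≤ Real.exp (-((e : ℝ) / M)) * M := by
  have h1 : #S ≤ M - e := by
    have : S.map Fin.valEmbedding ⊆ Finset.Ico e M := by
      intro r hr
      obtain ⟨r', hr', rfl⟩ := mem_map.1 hr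
      rw [mem_Ico]
      exact ⟨hS r' hr', r'.2⟩
    have h2 := card_le_card this
    rwa [card_map, Nat.card_Ico] at h2
  have hM' : (0 : ℝ) < M := by exact_mod_cast hM
  rcases le_total e M with h | h
  · have h2 : (#S : ℝ) ≤ M - e := by
      have h3 : (#S : ℝ) ≤ ((M - e : ℕ) : ℝ) := by exact_mod_cast h1
      rwa [Nat.cast_sub h] at h3
    have h3 := Real.add_one_le_exp (-((e : ℝ) / M))
    calc (#S : ℝ) ≤ M - e := h2
      _ = (-((e : ℝ) / M) + 1) * M := by field_simp; ring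
      _ ≤ _ := mul_le_mul_of_nonneg_right h3 hM'.le
  · have h2 : #S = 0 := by omega
    rw [h2]
    push_cast
    positivity

/-- For a typical second matrix: few first matrices avoid all hits. -/
theorem row_bound {τ sm : ℕ} (hsm : sm ≤ τ) (hτ : 3 ≤ τ) (hn : 2 ^ (sm + 1) ≤ n) (hM : 0 < M)
    (b : Fin n × Fin n → Fin M) (hb : Typ τ sm b) (P Q : Finset (Fin n × Fin n))
    (hlight : ∀ p ∈ P, #(univ.filter (fun k => (p.1, k) ∈ Q)) ≤ 2 ^ (τ - 3))
    (ρ : Fin n × Fin n → Fin M) :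
    (Nat.card {a : Fin n × Fin n → Fin M // (∀ p ∈ Q, a p = ρ p) ∧ NoHit τ a b P} : ℝ) ≤
      Real.exp (-((#P * 2 ^ sm * 2 ^ (τ - 3) : ℕ) : ℝ) / (n * M)) *
        Nat.card {a : Fin n × Fin n → Fin M // ∀ p ∈ Q, a p = ρ p} := by
  classical
  choose e H hH1 hH2 hH3 using rowData hsm hτ hn b hb P Q hlight
  set S : Fin n × Fin n → Finset (Fin M) := fun p => univ.filter (fun r =>
    (p ∈ Q → r = ρ p) ∧ (p.2 ∈ H p.1 → e p.1 ≤ r.1)) with hS
  set S' : Fin n × Fin n → Finset (Fin M) := fun p => univ.filter (fun r =>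
    (p ∈ Q → r = ρ p)) with hS'
  have c1 : Nat.card {a : Fin n × Fin n → Fin M // (∀ p ∈ Q, a p = ρ p) ∧ NoHit τ a b P} ≤
      ∏ p, #(S p) := by
    rw [← Fintype.card_piFinset, Nat.card_eq_fintype_card, Fintype.card_subtype]
    apply card_le_card
    intro a ha
    obtain ⟨h1, h2⟩ := (mem_filter.1 ha).2
    rw [Fintype.mem_piFinset]
    intro p
    simp only [hS, mem_filter, mem_univ, true_and]
    exact ⟨fun hp => h1 p hp, fun hp => hH2 p.1 a h2 p.2 hp⟩
  have c2 : Nat.card {a : Fin n × Fin n → Fin M // ∀ p ∈ Q, a p = ρ p} = ∏ p, #(S' p) := by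
    rw [← Fintype.card_piFinset, Nat.card_eq_fintype_card, Fintype.card_subtype]
    congr 1
    ext a
    simp only [mem_filter, mem_univ, true_and, Fintype.mem_piFinset, hS']
  set c : Fin n × Fin n → ℕ := fun p => if p.2 ∈ H p.1 then e p.1 else 0 with hc
  have c3 : ∀ p, (#(S p) : ℝ) ≤ Real.exp (-((c p : ℝ) / M)) * #(S' p) := by
    intro p
    by_cases hp : p.2 ∈ H p.1
    · have hpQ : p ∉ Q := hH1 p.1 p.2 hp
      have h1 : #(S' p) = M := by
        have : S' p = univ := by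
          ext r; simp [hS', hpQ]
        rw [this]; simp
      rw [h1]
      have h2 : c p = e p.1 := by simp [hc, hp]
      rw [h2]
      apply card_ge_le M (e p.1) (S p) _ hM
      intro r hr
      exact (mem_filter.1 hr).2.2 hp
    · have h1 : S p = S' p := by
        ext r; simp [hS, hS', hp]
      have h2 : c p = 0 := by simp [hc, hp]
      rw [h1, h2]
      simp
  have c4 : (∏ p, (#(S p) : ℝ)) ≤ Real.exp (-((∑ p, (c p : ℝ)) / M)) * ∏ p, (#(S' p) : ℝ) := by
    calc (∏ p, (#(S p) : ℝ)) ≤ ∏ p, (Real.exp (-((c p : ℝ) / M)) * #(S' p)) :=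
          Finset.prod_le_prod (fun p _ => Nat.cast_nonneg _) (fun p _ => c3 p)
      _ = _ := by
          rw [Finset.prod_mul_distrib, ← Real.exp_sum]
          congr 2
          rw [Finset.sum_div, Finset.sum_neg_distrib]
  have c5 : #P * 2 ^ sm * 2 ^ (τ - 3) ≤ n * ∑ p, c p := by
    have h1 : ∑ p, c p = ∑ i, #(H i) * e i := by
      rw [Fintype.sum_prod_type]
      refine sum_congr rfl fun i _ => ?_
      simp only [hc]
      rw [← sum_filter, sum_const, smul_eq_mul]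
      congr 2
      ext k; simp
    have h2 : #P = ∑ i, #(P.filter (fun p => p.1 = i)) :=
      Finset.card_eq_sum_card_fiberwise (fun p _ => mem_univ _)
    rw [h1, h2, sum_mul, sum_mul, mul_sum]
    exact sum_le_sum fun i _ => hH3 i
  have hn0 : 0 < n := lt_of_lt_of_le (by positivity) hn
  have hn' : (0 : ℝ) < n := by exact_mod_cast hn0
  have hM' : (0 : ℝ) < M := by exact_mod_cast hM
  have c6 : -((∑ p, (c p : ℝ)) / M) ≤
      -((#P * 2 ^ sm * 2 ^ (τ - 3) : ℕ) : ℝ) / (n * M) := by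
    rw [neg_div, neg_le_neg_iff, div_le_div_iff₀ (by positivity) hM']
    have h1 : ((#P * 2 ^ sm * 2 ^ (τ - 3) : ℕ) : ℝ) ≤ n * ∑ p, (c p : ℝ) := by
      exact_mod_cast c5
    calc ((#P * 2 ^ sm * 2 ^ (τ - 3) : ℕ) : ℝ) * M ≤ (n * ∑ p, (c p : ℝ)) * M :=
          mul_le_mul_of_nonneg_right h1 hM'.le
      _ = (∑ p, (c p : ℝ)) * (n * M) := by ring
  calc (Nat.card {a : Fin n × Fin n → Fin M // (∀ p ∈ Q, a p = ρ p) ∧ NoHit τ a b P} : ℝ)
      ≤ ((∏ p, #(S p) : ℕ) : ℝ) := by exact_mod_cast c1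
    _ = ∏ p, (#(S p) : ℝ) := by push_cast; rfl
    _ ≤ Real.exp (-((∑ p, (c p : ℝ)) / M)) * ∏ p, (#(S' p) : ℝ) := c4
    _ ≤ Real.exp (-((#P * 2 ^ sm * 2 ^ (τ - 3) : ℕ) : ℝ) / (n * M)) *
        ∏ p, (#(S' p) : ℝ) :=
        mul_le_mul_of_nonneg_right (Real.exp_le_exp.2 c6)
          (Finset.prod_nonneg fun p _ => Nat.cast_nonneg _)
    _ = _ := by rw [c2]; push_cast; rfl

/-- The part of a set of entries in the first matrix. -/
def qa (Q : Finset (Ix n)) : Finset (Fin n × Fin n) := univ.filter (fun p => Sum.inl p ∈ Q)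

/-- The part of a set of entries in the second matrix. -/
def qb (Q : Finset (Ix n)) : Finset (Fin n × Fin n) := univ.filter (fun p => Sum.inr p ∈ Q)

theorem card_qa_le (Q : Finset (Ix n)) : #(qa Q) ≤ #Q :=
  Finset.card_le_card_of_injOn Sum.inl (fun p hp => by simpa [qa] using hp)
    (fun p _ q _ h => Sum.inl_injective h)

theorem card_qb_le (Q : Finset (Ix n)) : #(qb Q) ≤ #Q :=
  Finset.card_le_card_of_injOn Sum.inr (fun p hp => by simpa [qb] using hp)
    (fun p _ q _ h => Sum.inr_injective h)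

theorem card_heavy (Q : Finset (Fin n × Fin n)) (h y : ℕ) (hh : 0 < h) (hQ : #Q ≤ h * y) :
    #(univ.filter (fun i : Fin n => ¬ #(univ.filter (fun k => (i, k) ∈ Q)) ≤ h)) ≤ y := by
  classical
  set W := univ.filter (fun i : Fin n => ¬ #(univ.filter (fun k => (i, k) ∈ Q)) ≤ h)
  have h1 : #Q = ∑ i, #(Q.filter (fun p => p.1 = i)) :=
    Finset.card_eq_sum_card_fiberwise (fun p _ => mem_univ _)
  have h2 : ∀ i, #(Q.filter (fun p => p.1 = i)) = #(univ.filter (fun k => (i, k) ∈ Q)) := by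
    intro i
    symm
    apply Finset.card_bij (fun j _ => (i, j))
    · intro j hj
      simp only [mem_filter, mem_univ, true_and] at hj
      simp [hj]
    · intro j _ j' _ h
      exact congrArg Prod.snd h
    · rintro ⟨p, q⟩ hp
      simp only [mem_filter] at hp
      obtain ⟨hp1, rfl⟩ := hp
      exact ⟨q, by simp [hp1], rfl⟩
  have h3 : #W * h ≤ #Q := by
    rw [h1]
    calc #W * h = ∑ i ∈ W, h := by simp
      _ ≤ ∑ i ∈ W, #(Q.filter (fun p => p.1 = i)) := by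
          apply sum_le_sum
          intro i hi
          rw [h2]
          have := (mem_filter.1 hi).2
          omega
      _ ≤ _ := sum_le_sum_of_subset (subset_univ _)
  have h4 : #W * h ≤ y * h := by rw [mul_comm y h]; exact h3.trans hQ
  exact Nat.le_of_mul_le_mul_right h4 hh

/-- The exponent of the bound at the leaves. -/
noncomputable def beta (n M τ sm y : ℕ) : ℝ :=
  Real.exp (-((y ^ 2 * 2 ^ sm * 2 ^ (τ - 3) : ℕ) : ℝ) / (2 * (n * M)))

theorem leaf_bound {τ sm : ℕ} (hsm : sm ≤ τ) (hτ : 3 ≤ τ) (hn : 2 ^ (sm + 1) ≤ n) (hM : 0 < M)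
    (Q : Finset (Ix n)) (ρ : Ix n → Fin M) (y : ℕ) (hQ : #Q ≤ 2 ^ (τ - 3) * y)
    (P : Finset (Fin n × Fin n)) (hP : 2 * y ^ 2 ≤ #P) :
    (Nat.card {x : Ix n → Fin M // (∀ j ∈ Q, x j = ρ j) ∧ (Typ τ sm (fun p => x (Sum.inl p)) ∧
      Typ τ sm (fun p => x (Sum.inr p)) ∧
      NoHit τ (fun p => x (Sum.inl p)) (fun p => x (Sum.inr p)) P)} : ℝ) ≤
      beta n M τ sm y * Nat.card {x : Ix n → Fin M // ∀ j ∈ Q, x j = ρ j} := by
  classical
  set P1 := P.filter (fun p => #(univ.filter (fun k => (p.1, k) ∈ qa Q)) ≤ 2 ^ (τ - 3)) with hP1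
  set P2 := P.filter (fun p => #(univ.filter (fun k => (p.2, k) ∈ qb Q)) ≤ 2 ^ (τ - 3)) with hP2
  have hcases : y ^ 2 ≤ 2 * #P1 ∨ y ^ 2 ≤ 2 * #P2 := by
    have h1 := card_heavy (qa Q) (2 ^ (τ - 3)) y (by positivity) ((card_qa_le Q).trans hQ)
    have h2 := card_heavy (qb Q) (2 ^ (τ - 3)) y (by positivity) ((card_qb_le Q).trans hQ)
    have h3 : P ⊆ P1 ∪ P2 ∪ (univ.filter (fun i : Fin n =>
        ¬ #(univ.filter (fun k => (i, k) ∈ qa Q)) ≤ 2 ^ (τ - 3))) ×ˢ
        (univ.filter (fun i : Fin n => ¬ #(univ.filter (fun k => (i, k) ∈ qb Q)) ≤ 2 ^ (τ - 3))) := by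
      intro p hp
      by_cases c1 : #(univ.filter (fun k => (p.1, k) ∈ qa Q)) ≤ 2 ^ (τ - 3)
      · exact mem_union_left _ (mem_union_left _ (mem_filter.2 ⟨hp, c1⟩))
      · by_cases c2 : #(univ.filter (fun k => (p.2, k) ∈ qb Q)) ≤ 2 ^ (τ - 3)
        · exact mem_union_left _ (mem_union_right _ (mem_filter.2 ⟨hp, c2⟩))
        · apply mem_union_right
          rw [mem_product]
          exact ⟨mem_filter.2 ⟨mem_univ _, c1⟩, mem_filter.2 ⟨mem_univ _, c2⟩⟩
    have h4 := (card_le_card h3).trans ((card_union_le _ _).trans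
      (Nat.add_le_add_right (card_union_le _ _) _))
    rw [card_product] at h4
    have h5 := Nat.mul_le_mul h1 h2
    have h6 : y * y = y ^ 2 := by ring
    omega
  have hn0 : 0 < n := lt_of_lt_of_le (by positivity) hn
  have hn' : (0 : ℝ) < n := by exact_mod_cast hn0
  have hM' : (0 : ℝ) < M := by exact_mod_cast hM
  have hexp : ∀ m : ℕ, y ^ 2 ≤ 2 * m →
      Real.exp (-((m * 2 ^ sm * 2 ^ (τ - 3) : ℕ) : ℝ) / (n * M)) ≤ beta n M τ sm y := by
    intro m hm
    unfold beta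
    apply Real.exp_le_exp.2
    rw [neg_div, neg_div, neg_le_neg_iff, div_le_div_iff₀ (by positivity) (by positivity)]
    have h1 : y ^ 2 * 2 ^ sm * 2 ^ (τ - 3) ≤ 2 * (m * 2 ^ sm * 2 ^ (τ - 3)) := by
      calc y ^ 2 * 2 ^ sm * 2 ^ (τ - 3) ≤ (2 * m) * 2 ^ sm * 2 ^ (τ - 3) := by gcongr
        _ = _ := by ring
    have h2 : ((y ^ 2 * 2 ^ sm * 2 ^ (τ - 3) : ℕ) : ℝ) ≤
        2 * ((m * 2 ^ sm * 2 ^ (τ - 3) : ℕ) : ℝ) := by exact_mod_cast h1
    calc ((y ^ 2 * 2 ^ sm * 2 ^ (τ - 3) : ℕ) : ℝ) * (n * M) ≤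
          (2 * ((m * 2 ^ sm * 2 ^ (τ - 3) : ℕ) : ℝ)) * (n * M) :=
          mul_le_mul_of_nonneg_right h2 (by positivity)
      _ = _ := by ring
  -- the number of pairs of matrices which agree
  have hall : Nat.card {x : Ix n → Fin M // ∀ j ∈ Q, x j = ρ j} =
      Nat.card {a : Fin n × Fin n → Fin M // ∀ p ∈ qa Q, a p = ρ (Sum.inl p)} *
      Nat.card {b : Fin n × Fin n → Fin M // ∀ p ∈ qb Q, b p = ρ (Sum.inr p)} := by
    rw [← Nat.card_prod]
    refine Nat.card_congr ⟨fun x => (⟨fun p => x.1 (Sum.inl p), fun p hp =>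
      x.2 _ (by simpa [qa] using hp)⟩, ⟨fun p => x.1 (Sum.inr p), fun p hp =>
      x.2 _ (by simpa [qb] using hp)⟩), fun ab => ⟨Sum.elim ab.1.1 ab.2.1, ?_⟩, ?_, ?_⟩
    · rintro (p | p) hp
      · exact ab.1.2 p (by simpa [qa] using hp)
      · exact ab.2.2 p (by simpa [qb] using hp)
    · intro x
      apply Subtype.ext
      funext j
      rcases j with p | p <;> rfl
    · intro ab
      rfl
  rw [hall]
  rcases hcases with hc | hc
  · -- many light rows of the first matrix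
    have hrow : ∀ b : {b : Fin n × Fin n → Fin M // (∀ p ∈ qb Q, b p = ρ (Sum.inr p)) ∧
        Typ τ sm b}, (Nat.card {a : Fin n × Fin n → Fin M //
        (∀ p ∈ qa Q, a p = ρ (Sum.inl p)) ∧ NoHit τ a b.1 P1} : ℝ) ≤
        beta n M τ sm y *
        Nat.card {a : Fin n × Fin n → Fin M // ∀ p ∈ qa Q, a p = ρ (Sum.inl p)} := by
      intro b
      have h1 := row_bound hsm hτ hn hM b.1 b.2.2 P1 (qa Q)
        (fun p hp => (mem_filter.1 hp).2) (fun p => ρ (Sum.inl p))
      exact h1.trans (mul_le_mul_of_nonneg_right (hexp _ hc) (Nat.cast_nonneg _))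
    have hinj : Nat.card {x : Ix n → Fin M // (∀ j ∈ Q, x j = ρ j) ∧
        (Typ τ sm (fun p => x (Sum.inl p)) ∧ Typ τ sm (fun p => x (Sum.inr p)) ∧
        NoHit τ (fun p => x (Sum.inl p)) (fun p => x (Sum.inr p)) P)} ≤
        ∑ b : {b : Fin n × Fin n → Fin M // (∀ p ∈ qb Q, b p = ρ (Sum.inr p)) ∧
        Typ τ sm b}, Nat.card {a : Fin n × Fin n → Fin M //
        (∀ p ∈ qa Q, a p = ρ (Sum.inl p)) ∧ NoHit τ a b.1 P1} := by
      rw [← Nat.card_sigma]
      refine Nat.card_le_card_of_injective (fun x => ⟨⟨fun p => x.1 (Sum.inr p),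
        fun p hp => x.2.1 _ (by simpa [qb] using hp), x.2.2.2.1⟩,
        ⟨fun p => x.1 (Sum.inl p), fun p hp => x.2.1 _ (by simpa [qa] using hp),
          noHit_mono (filter_subset _ _) x.2.2.2.2⟩⟩) ?_
      intro x x' h
      apply Subtype.ext
      have h1 : (fun p => x.1 (Sum.inr p)) = fun p => x'.1 (Sum.inr p) :=
        congrArg (fun z => z.1.1) h
      have h2 : (fun p => x.1 (Sum.inl p)) = fun p => x'.1 (Sum.inl p) :=
        congrArg (fun z => z.2.1) h
      funext j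
      rcases j with p | p
      · exact congrFun h2 p
      · exact congrFun h1 p
    have hb0 : (0 : ℝ) ≤ beta n M τ sm y := (Real.exp_pos _).le
    calc _ ≤ ((∑ b : {b : Fin n × Fin n → Fin M // (∀ p ∈ qb Q, b p = ρ (Sum.inr p)) ∧
        Typ τ sm b}, Nat.card {a : Fin n × Fin n → Fin M //
        (∀ p ∈ qa Q, a p = ρ (Sum.inl p)) ∧ NoHit τ a b.1 P1} : ℕ) : ℝ) := by
          exact_mod_cast hinj
      _ ≤ ∑ b : {b : Fin n × Fin n → Fin M // (∀ p ∈ qb Q, b p = ρ (Sum.inr p)) ∧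
        Typ τ sm b}, (beta n M τ sm y *
        Nat.card {a : Fin n × Fin n → Fin M // ∀ p ∈ qa Q, a p = ρ (Sum.inl p)} : ℝ) := by
          push_cast
          exact sum_le_sum fun b _ => hrow b
      _ = (Nat.card {b : Fin n × Fin n → Fin M // (∀ p ∈ qb Q, b p = ρ (Sum.inr p)) ∧
        Typ τ sm b} : ℝ) * (beta n M τ sm y *
        Nat.card {a : Fin n × Fin n → Fin M // ∀ p ∈ qa Q, a p = ρ (Sum.inl p)}) := by
          rw [sum_const, card_univ, nsmul_eq_mul, ← Nat.card_eq_fintype_card]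
      _ ≤ (Nat.card {b : Fin n × Fin n → Fin M // (∀ p ∈ qb Q, b p = ρ (Sum.inr p))} : ℝ) *
        (beta n M τ sm y *
        Nat.card {a : Fin n × Fin n → Fin M // ∀ p ∈ qa Q, a p = ρ (Sum.inl p)}) := by
          apply mul_le_mul_of_nonneg_right _ (by positivity)
          have h9 : Nat.card {b : Fin n × Fin n → Fin M // (∀ p ∈ qb Q, b p = ρ (Sum.inr p)) ∧
            Typ τ sm b} ≤
            Nat.card {b : Fin n × Fin n → Fin M // (∀ p ∈ qb Q, b p = ρ (Sum.inr p))} :=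
            Nat.card_le_card_of_injective (fun b => ⟨b.1, b.2.1⟩)
              (fun b b' h => Subtype.ext (congrArg (fun z => z.1) h))
          exact_mod_cast h9
      _ = _ := by push_cast; ring
  · -- many light rows of the second matrix
    have hPs : y ^ 2 ≤ 2 * #(P2.image Prod.swap) := by
      rwa [card_image_of_injective _ Prod.swap_injective]
    have hrow : ∀ b : {b : Fin n × Fin n → Fin M // (∀ p ∈ qa Q, b p = ρ (Sum.inl p)) ∧
        Typ τ sm b}, (Nat.card {a : Fin n × Fin n → Fin M //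
        (∀ p ∈ qb Q, a p = ρ (Sum.inr p)) ∧ NoHit τ a b.1 (P2.image Prod.swap)} : ℝ) ≤
        beta n M τ sm y *
        Nat.card {a : Fin n × Fin n → Fin M // ∀ p ∈ qb Q, a p = ρ (Sum.inr p)} := by
      intro b
      have h1 := row_bound hsm hτ hn hM b.1 b.2.2 (P2.image Prod.swap) (qb Q)
        (by
          intro p hp
          obtain ⟨p', hp', rfl⟩ := mem_image.1 hp
          exact (mem_filter.1 hp').2) (fun p => ρ (Sum.inr p))
      exact h1.trans (mul_le_mul_of_nonneg_right (hexp _ hPs) (Nat.cast_nonneg _))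
    have hinj : Nat.card {x : Ix n → Fin M // (∀ j ∈ Q, x j = ρ j) ∧
        (Typ τ sm (fun p => x (Sum.inl p)) ∧ Typ τ sm (fun p => x (Sum.inr p)) ∧
        NoHit τ (fun p => x (Sum.inl p)) (fun p => x (Sum.inr p)) P)} ≤
        ∑ b : {b : Fin n × Fin n → Fin M // (∀ p ∈ qa Q, b p = ρ (Sum.inl p)) ∧
        Typ τ sm b}, Nat.card {a : Fin n × Fin n → Fin M //
        (∀ p ∈ qb Q, a p = ρ (Sum.inr p)) ∧ NoHit τ a b.1 (P2.image Prod.swap)} := by
      rw [← Nat.card_sigma]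
      refine Nat.card_le_card_of_injective (fun x => ⟨⟨fun p => x.1 (Sum.inl p),
        fun p hp => x.2.1 _ (by simpa [qa] using hp), x.2.2.1⟩,
        ⟨fun p => x.1 (Sum.inr p), fun p hp => x.2.1 _ (by simpa [qb] using hp),
          noHit_swap (noHit_mono (filter_subset _ _) x.2.2.2.2)⟩⟩) ?_
      intro x x' h
      apply Subtype.ext
      have h1 : (fun p => x.1 (Sum.inl p)) = fun p => x'.1 (Sum.inl p) :=
        congrArg (fun z => z.1.1) h
      have h2 : (fun p => x.1 (Sum.inr p)) = fun p => x'.1 (Sum.inr p) :=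
        congrArg (fun z => z.2.1) h
      funext j
      rcases j with p | p
      · exact congrFun h1 p
      · exact congrFun h2 p
    have hb0 : (0 : ℝ) ≤ beta n M τ sm y := (Real.exp_pos _).le
    calc _ ≤ ((∑ b : {b : Fin n × Fin n → Fin M // (∀ p ∈ qa Q, b p = ρ (Sum.inl p)) ∧
        Typ τ sm b}, Nat.card {a : Fin n × Fin n → Fin M //
        (∀ p ∈ qb Q, a p = ρ (Sum.inr p)) ∧ NoHit τ a b.1 (P2.image Prod.swap)} : ℕ) : ℝ) := by
          exact_mod_cast hinj
      _ ≤ ∑ b : {b : Fin n × Fin n → Fin M // (∀ p ∈ qa Q, b p = ρ (Sum.inl p)) ∧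
        Typ τ sm b}, (beta n M τ sm y *
        Nat.card {a : Fin n × Fin n → Fin M // ∀ p ∈ qb Q, a p = ρ (Sum.inr p)} : ℝ) := by
          push_cast
          exact sum_le_sum fun b _ => hrow b
      _ = (Nat.card {b : Fin n × Fin n → Fin M // (∀ p ∈ qa Q, b p = ρ (Sum.inl p)) ∧
        Typ τ sm b} : ℝ) * (beta n M τ sm y *
        Nat.card {a : Fin n × Fin n → Fin M // ∀ p ∈ qb Q, a p = ρ (Sum.inr p)}) := by
          rw [sum_const, card_univ, nsmul_eq_mul, ← Nat.card_eq_fintype_card]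
      _ ≤ (Nat.card {b : Fin n × Fin n → Fin M // (∀ p ∈ qa Q, b p = ρ (Sum.inl p))} : ℝ) *
        (beta n M τ sm y *
        Nat.card {a : Fin n × Fin n → Fin M // ∀ p ∈ qb Q, a p = ρ (Sum.inr p)}) := by
          apply mul_le_mul_of_nonneg_right _ (by positivity)
          have h9 : Nat.card {b : Fin n × Fin n → Fin M // (∀ p ∈ qa Q, b p = ρ (Sum.inl p)) ∧
            Typ τ sm b} ≤
            Nat.card {b : Fin n × Fin n → Fin M // (∀ p ∈ qa Q, b p = ρ (Sum.inl p))} :=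
            Nat.card_le_card_of_injective (fun b => ⟨b.1, b.2.1⟩)
              (fun b b' h => Subtype.ext (congrArg (fun z => z.1) h))
          exact_mod_cast h9
      _ = _ := by push_cast; ring

end

end Pool.Agent.H537R2.Apsp
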