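import Pool.Agent.H537R2.Apsp.Core

/-!
# Choice of the parameters for all-pairs shortest paths
-/

set_option linter.unusedSectionVars false
set_option maxHeartbeats 400000

namespace Pool.Agent.H537R2.Apsp

open Finset

theorem le_of_solves {σ : Type} {N : ℕ} (P : Prog σ (Fin N × Fin N) ℕ∞ (Outp N)) (T : ℕ)
    (w : Graph N) (h : SolvesAPSP P T w) : N ^ 2 ≤ T := by
  classical
  obtain ⟨F, hF, hc⟩ := P.exists_finset w T 0 P.init
  have h1 : (univ : Finset (Fin N × Fin N)).image (fun p => (p, dist w p.1 p.2)) ⊆ F := by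
    intro a ha
    obtain ⟨p, _, rfl⟩ := mem_image.1 ha
    have h2 : ((p.1, p.2), dist w p.1 p.2) ∈ P.outs w 0 P.init T := (h _ _ _).2 rfl
    rw [← hF] at h2
    exact_mod_cast h2
  have h2 := (card_le_card h1).trans hc
  rw [card_image_of_injective _ (fun p q h => congrArg Prod.fst h), card_univ,
    Fintype.card_prod, Fintype.card_fin] at h2
  rwa [sq]

theorem pow_aux (m : ℕ) (hm : 6 ≤ m) : 4 * m + 8 ≤ 2 ^ (m - 1) := by
  obtain ⟨j, rfl⟩ := Nat.exists_eq_add_of_le hm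
  rw [show 6 + j - 1 = j + 5 by omega]
  induction j with
  | zero => norm_num
  | succ j ih =>
    have := ih (by omega)
    rw [show j + 1 + 5 = (j + 5) + 1 by ring, pow_succ]
    omega

/-- The lower bound for deterministic non-uniform algorithms, on average. -/
theorem det_bound : ∃ c : ℕ, 0 < c ∧ ∃ N₀ : ℕ, ∀ N ≥ N₀, 3 * 2 ^ Nat.log 2 (N / 3) ≤ N ∧
    ∀ S T : ℕ, Nat.log 2 N ≤ S → c * (T ^ 2 * S * (Nat.log 2 N) ^ 5) ≤ N ^ 6 →
    ∀ (σ : Type) (_ : Fintype σ) (P : Prog σ (Fin N × Fin N) ℕ∞ (Outp N)),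
      Fintype.card σ ≤ 2 ^ S →
      2 * (Nat.card {x : Ix (2 ^ Nat.log 2 (N / 3)) → Fin (2 ^ Nat.log 2 (N / 3)) //
        SolvesAPSP P T (graphOf N x)} : ℝ) ≤
      Nat.card (Ix (2 ^ Nat.log 2 (N / 3)) → Fin (2 ^ Nat.log 2 (N / 3))) := by
  classical
  refine ⟨46656 * 2 ^ 41, by positivity, 3 * 2 ^ 32, ?_⟩
  intro N hN
  set ℓ := Nat.log 2 (N / 3) with hℓ
  have hN3 : 2 ^ 32 ≤ N / 3 := by
    rw [Nat.le_div_iff_mul_le (by norm_num)]; omega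
  have hℓ32 : 32 ≤ ℓ := Nat.le_log_of_pow_le (by norm_num) hN3
  have h3N : 3 * 2 ^ ℓ ≤ N := by
    have h1 : 2 ^ ℓ ≤ N / 3 := Nat.pow_log_le_self 2 (by omega)
    omega
  refine ⟨h3N, ?_⟩
  intro S T hS hTS σ _ P hσ
  have hN6 : N ≤ 6 * 2 ^ ℓ := by
    have h1 : N / 3 < 2 ^ (ℓ + 1) := Nat.lt_pow_succ_log_self (by norm_num) _
    rw [pow_succ] at h1
    omega
  have hℓL : ℓ ≤ Nat.log 2 N := Nat.log_mono_right (Nat.div_le_self _ _)
  set L := Nat.log 2 N with hL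
  set n := 2 ^ ℓ with hn
  have hn0 : 0 < n := by positivity
  have hS32 : 32 ≤ S := by omega
  by_cases hT2 : T < n ^ 2
  · have h1 : Nat.card {x : Ix n → Fin n // SolvesAPSP P T (graphOf N x)} = 0 := by
      rw [Nat.card_eq_zero]
      left
      constructor
      rintro ⟨x, hx⟩
      have h2 := le_of_solves P T _ hx
      have h3 : n ^ 2 ≤ N ^ 2 := Nat.pow_le_pow_left (by omega) 2
      omega
    rw [h1, Nat.cast_zero, mul_zero]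
    exact Nat.cast_nonneg _
  push Not at hT2
  -- the main inequality in terms of `n`
  have hmain : 2 ^ 41 * (T ^ 2 * S * ℓ ^ 5) ≤ n ^ 6 := by
    have h1 : N ^ 6 ≤ 46656 * n ^ 6 := by
      calc N ^ 6 ≤ (6 * n) ^ 6 := Nat.pow_le_pow_left hN6 6
        _ = 46656 * n ^ 6 := by rw [mul_pow]; norm_num
    have h2 : 46656 * (2 ^ 41 * (T ^ 2 * S * ℓ ^ 5)) ≤ 46656 * n ^ 6 := by
      calc 46656 * (2 ^ 41 * (T ^ 2 * S * ℓ ^ 5)) = 46656 * 2 ^ 41 * (T ^ 2 * S * ℓ ^ 5) := by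
            ring
        _ ≤ 46656 * 2 ^ 41 * (T ^ 2 * S * L ^ 5) := by gcongr
        _ ≤ N ^ 6 := hTS
        _ ≤ 46656 * n ^ 6 := h1
    exact Nat.le_of_mul_le_mul_left h2 (by norm_num)
  have hSn : 2 ^ 41 * (S * ℓ ^ 5) ≤ n ^ 2 := by
    have h1 : (2 ^ 41 * (S * ℓ ^ 5)) * n ^ 4 ≤ n ^ 2 * n ^ 4 := by
      calc (2 ^ 41 * (S * ℓ ^ 5)) * n ^ 4 = 2 ^ 41 * ((n ^ 2) ^ 2 * S * ℓ ^ 5) := by ring
        _ ≤ 2 ^ 41 * (T ^ 2 * S * ℓ ^ 5) := by gcongr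
        _ ≤ n ^ 6 := hmain
        _ = n ^ 2 * n ^ 4 := by ring
    exact Nat.le_of_mul_le_mul_right h1 (by positivity)
  -- parameters
  set lam := Nat.log 2 ℓ + 1 with hlam
  have hlam1 : ℓ < 2 ^ lam := Nat.lt_pow_succ_log_self (by norm_num) _
  have hlam2 : 2 ^ (lam - 1) ≤ ℓ := Nat.pow_log_le_self 2 (by omega)
  have hlam6 : 6 ≤ lam := by
    have h1 : 5 ≤ Nat.log 2 ℓ := Nat.le_log_of_pow_le (by norm_num) (by omega)
    omega
  have hlam3 : 4 * lam + 8 ≤ ℓ := (pow_aux lam hlam6).trans hlam2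
  have hlam4 : 2 ^ lam ≤ 2 * ℓ := by
    have : 2 ^ lam = 2 * 2 ^ (lam - 1) := by
      rw [← pow_succ']; congr 1
    omega
  obtain ⟨r, hr⟩ : ∃ r, ℓ = r + 6 + 2 * lam := ⟨ℓ - 6 - 2 * lam, by omega⟩
  set τ := r + 3 + lam with hτ
  have hτ3 : τ - 3 = r + lam := by omega
  have hτ8 : 8 ≤ τ := by omega
  have hsm : r ≤ τ := by omega
  have hnsm : 2 ^ (r + 1) ≤ 2 ^ ℓ := Nat.pow_le_pow_right (by norm_num) (by omega)
  have hτn : 8 * ((τ + 1) * 2 ^ τ) ≤ 2 ^ ℓ := by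
    calc 8 * ((τ + 1) * 2 ^ τ) ≤ 8 * (2 ^ lam * 2 ^ τ) := by
          apply Nat.mul_le_mul_left
          apply Nat.mul_le_mul_right
          omega
      _ = 2 ^ ℓ := by
          rw [show (8 : ℕ) = 2 ^ 3 by norm_num, ← pow_add, ← pow_add]
          congr 1
          omega
  have hs : ℓ * 2 ^ r ≤ 2 ^ (τ - 3) := by
    calc ℓ * 2 ^ r ≤ 2 ^ lam * 2 ^ r := Nat.mul_le_mul_right _ hlam1.le
      _ = 2 ^ (τ - 3) := by rw [← pow_add]; congr 1; omega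
  have hs2 : r + 1 ≤ 2 ^ (τ - 3) := by
    have : τ - 3 < 2 ^ (τ - 3) := Nat.lt_two_pow_self
    omega
  have F1 : n ^ 2 ≤ 2 ^ r * 2 ^ (τ - 3) * (2 ^ 15 * ℓ ^ 3) := by
    calc n ^ 2 = 2 ^ r * 2 ^ (τ - 3) * (2 ^ 12 * (2 ^ lam) ^ 3) := by
          rw [hn, ← pow_mul, ← pow_mul, ← pow_add, ← pow_add, ← pow_add]
          congr 1
          omega
      _ ≤ 2 ^ r * 2 ^ (τ - 3) * (2 ^ 12 * (2 * ℓ) ^ 3) := by gcongr
      _ = _ := by ring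
  have F2 : n ≤ 2 ^ (τ - 3) * (2 ^ 7 * ℓ) := by
    calc n = 2 ^ (τ - 3) * (2 ^ 6 * 2 ^ lam) := by
          rw [hn, ← pow_add, ← pow_add]
          congr 1
          omega
      _ ≤ 2 ^ (τ - 3) * (2 ^ 6 * (2 * ℓ)) := by gcongr
      _ = _ := by ring
  set Y := 2 ^ 19 * ℓ ^ 3 * S with hY
  have hY1 : 1 ≤ Y := by
    have h1 : 0 < ℓ := by omega
    have h2 : 0 < S := by omega
    exact Nat.succ_le_of_lt (by positivity)
  set y := Nat.sqrt Y + 1 with hy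
  have hy1 : Y ≤ y ^ 2 := by
    have := Nat.lt_succ_sqrt Y
    rw [sq]
    exact this.le
  have hy2 : y ^ 2 ≤ 4 * Y := by
    have h1 := Nat.sqrt_le Y
    have h2 : 1 ≤ Nat.sqrt Y := Nat.le_sqrt.2 (by omega)
    calc y ^ 2 ≤ (2 * Nat.sqrt Y) ^ 2 := Nat.pow_le_pow_left (by omega) 2
      _ = 4 * (Nat.sqrt Y * Nat.sqrt Y) := by ring
      _ ≤ 4 * Y := Nat.mul_le_mul_left _ h1
  have hy0 : 0 < y := by omega
  set D := 2 ^ (τ - 3) * y with hD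
  have hD0 : 0 < D := by positivity
  set B := T / D with hB
  have hTB : T ≤ (B + 1) * D := by
    have := Nat.lt_mul_div_succ T hD0
    rw [mul_comm] at this
    exact this.le
  have hBD : B * D ≤ T := Nat.div_mul_le_self T D
  have hy8 : 8 * y ^ 2 ≤ n ^ 2 := by
    calc 8 * y ^ 2 ≤ 8 * (4 * Y) := Nat.mul_le_mul_left _ hy2
      _ = 2 ^ 24 * (S * ℓ ^ 3) := by rw [hY]; ring
      _ ≤ 2 ^ 41 * (S * ℓ ^ 5) := by
          apply Nat.mul_le_mul (by norm_num)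
          apply Nat.mul_le_mul_left
          exact Nat.pow_le_pow_right (by omega) (by norm_num)
      _ ≤ n ^ 2 := hSn
  have hyT : 8 * (y * T) ≤ n ^ 2 * 2 ^ (τ - 3) := by
    have h1 : (8 * (y * T)) ^ 2 ≤ (n ^ 2 * 2 ^ (τ - 3)) ^ 2 := by
      have h2 : (8 * (y * T)) ^ 2 * (2 ^ 14 * ℓ ^ 2) ≤
          (n ^ 2 * 2 ^ (τ - 3)) ^ 2 * (2 ^ 14 * ℓ ^ 2) := by
        calc (8 * (y * T)) ^ 2 * (2 ^ 14 * ℓ ^ 2) = 2 ^ 20 * (y ^ 2 * T ^ 2 * ℓ ^ 2) := by ring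
          _ ≤ 2 ^ 20 * (4 * Y * T ^ 2 * ℓ ^ 2) := by gcongr
          _ = 2 ^ 41 * (T ^ 2 * S * ℓ ^ 5) := by rw [hY]; ring
          _ ≤ n ^ 6 := hmain
          _ = n ^ 4 * n ^ 2 := by ring
          _ ≤ n ^ 4 * (2 ^ (τ - 3) * (2 ^ 7 * ℓ)) ^ 2 := by gcongr
          _ = _ := by ring
      exact Nat.le_of_mul_le_mul_right h2 (by have : 0 < ℓ := by omega
                                              positivity)
    exact (Nat.pow_le_pow_iff_left (by norm_num)).1 h1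
  have hBn : 2 * ((B + 1) * (2 * y ^ 2)) ≤ n ^ 2 := by
    have h1 : 2 * (2 * ((B + 1) * (2 * y ^ 2))) * 2 ^ (τ - 3) ≤ 2 * n ^ 2 * 2 ^ (τ - 3) := by
      calc 2 * (2 * ((B + 1) * (2 * y ^ 2))) * 2 ^ (τ - 3) =
            8 * (y * (B * D)) + 8 * y ^ 2 * 2 ^ (τ - 3) := by rw [hD]; ring
        _ ≤ 8 * (y * T) + n ^ 2 * 2 ^ (τ - 3) := by gcongr
        _ ≤ n ^ 2 * 2 ^ (τ - 3) + n ^ 2 * 2 ^ (τ - 3) := Nat.add_le_add_right hyT _
        _ = 2 * n ^ 2 * 2 ^ (τ - 3) := by ring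
    have h2 := Nat.le_of_mul_le_mul_right h1 (by positivity)
    omega
  have hβ : 8 * (((B + 1 : ℕ) : ℝ) * Fintype.card σ * beta (2 ^ ℓ) (2 ^ ℓ) τ r y) ≤ 1 := by
    have hB1 : B + 1 ≤ 2 ^ (2 * S) := by
      have h1 : B + 1 ≤ n ^ 2 := by
        have h2 : (B + 1) * 1 ≤ (B + 1) * (2 * y ^ 2) :=
          Nat.mul_le_mul_left _ (by have : 0 < y ^ 2 := by positivity
                                    omega)
        omega
      calc B + 1 ≤ n ^ 2 := h1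
        _ = 2 ^ (2 * ℓ) := by rw [hn, ← pow_mul]; congr 1; ring
        _ ≤ 2 ^ (2 * S) := Nat.pow_le_pow_right (by norm_num) (by omega)
    have hcomb : 8 * ((B + 1) * Fintype.card σ) ≤ 2 ^ (6 * S) := by
      calc 8 * ((B + 1) * Fintype.card σ) ≤ 2 ^ (3 * S) * (2 ^ (2 * S) * 2 ^ S) := by
            apply Nat.mul_le_mul _ (Nat.mul_le_mul hB1 hσ)
            calc 8 = 2 ^ 3 := by norm_num
              _ ≤ 2 ^ (3 * S) := Nat.pow_le_pow_right (by norm_num) (by omega)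
        _ = 2 ^ (6 * S) := by rw [← pow_add, ← pow_add]; congr 1; ring
    have hexp : beta (2 ^ ℓ) (2 ^ ℓ) τ r y ≤ Real.exp (-((6 * S : ℕ) : ℝ)) := by
      unfold beta
      apply Real.exp_le_exp.2
      rw [neg_div, neg_le_neg_iff]
      have hn' : (0 : ℝ) < ((2 ^ ℓ : ℕ) : ℝ) := by exact_mod_cast hn0
      rw [le_div_iff₀ (by positivity)]
      have h1 : (6 * S) * (2 * (n * n)) ≤ y ^ 2 * 2 ^ r * 2 ^ (τ - 3) := by
        calc (6 * S) * (2 * (n * n)) = 12 * S * n ^ 2 := by ring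
          _ ≤ 12 * S * (2 ^ r * 2 ^ (τ - 3) * (2 ^ 15 * ℓ ^ 3)) := by gcongr
          _ = 12 * 2 ^ 15 * ℓ ^ 3 * S * (2 ^ r * 2 ^ (τ - 3)) := by ring
          _ ≤ 2 ^ 19 * ℓ ^ 3 * S * (2 ^ r * 2 ^ (τ - 3)) := by gcongr; norm_num
          _ = Y * (2 ^ r * 2 ^ (τ - 3)) := by rw [hY]
          _ ≤ y ^ 2 * (2 ^ r * 2 ^ (τ - 3)) := Nat.mul_le_mul_right _ hy1
          _ = _ := by ring
      exact_mod_cast h1
    have h2 : ((2 : ℝ) ^ (6 * S)) ≤ Real.exp ((6 * S : ℕ) : ℝ) := by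
      have h3 : (2 : ℝ) ≤ Real.exp 1 := by linarith [Real.exp_one_gt_d9]
      calc ((2 : ℝ) ^ (6 * S)) ≤ (Real.exp 1) ^ (6 * S) := pow_le_pow_left₀ (by norm_num) h3 _
        _ = Real.exp ((6 * S : ℕ) : ℝ) := by rw [← Real.exp_nat_mul, mul_one]
    have hcomb' : 8 * (((B + 1 : ℕ) : ℝ) * Fintype.card σ) ≤ 2 ^ (6 * S) := by
      exact_mod_cast hcomb
    have hb0 : 0 ≤ beta (2 ^ ℓ) (2 ^ ℓ) τ r y := (Real.exp_pos _).le
    calc 8 * (((B + 1 : ℕ) : ℝ) * Fintype.card σ * beta (2 ^ ℓ) (2 ^ ℓ) τ r y)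
        = 8 * (((B + 1 : ℕ) : ℝ) * Fintype.card σ) * beta (2 ^ ℓ) (2 ^ ℓ) τ r y := by ring
      _ ≤ 2 ^ (6 * S) * beta (2 ^ ℓ) (2 ^ ℓ) τ r y := mul_le_mul_of_nonneg_right hcomb' hb0
      _ ≤ Real.exp ((6 * S : ℕ) : ℝ) * Real.exp (-((6 * S : ℕ) : ℝ)) :=
          mul_le_mul h2 hexp hb0 (Real.exp_pos _).le
      _ = 1 := by rw [← Real.exp_add]; simp
  exact core P ℓ h3N hsm hτ8 hnsm hτn hs hs2 y B T hTB hBn hβ

/-- The lower bound for randomized non-uniform algorithms. -/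
theorem rand_bound : ∃ c : ℕ, ∀ᶠ N : ℕ in Filter.atTop, ∀ S T : ℕ, Nat.log 2 N ≤ S →
    ∀ (σ : Type) (_ : Fintype σ), Fintype.card σ ≤ 2 ^ S →
    ∀ (Ω : Type) (_ : Fintype Ω) (P : Ω → Prog σ (Fin N × Fin N) ℕ∞ (Outp N)),
      (∀ w : Graph N, (∀ p, w p = ⊤ ∨ (1 ≤ w p ∧ w p ≤ (Nat.log 2 N : ℕ))) →
        Nat.card Ω < 2 * Nat.card {r : Ω // SolvesAPSP (P r) T w}) →
      N ^ 6 < c * (T ^ 2 * S * (Nat.log 2 N) ^ 5) := by
  classical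
  obtain ⟨c, hc, N₀, h⟩ := det_bound
  refine ⟨c, ?_⟩
  filter_upwards [Filter.eventually_ge_atTop (max N₀ 3)] with N hN S T hS σ _ hσ Ω _ P hP
  obtain ⟨h3N, hdet⟩ := h N ((le_max_left _ _).trans hN)
  have hN3 : 3 ≤ N := (le_max_right _ _).trans hN
  by_contra hcon
  push Not at hcon
  set ℓ := Nat.log 2 (N / 3) with hℓ
  have hℓL : ℓ + 1 ≤ Nat.log 2 N := by
    apply Nat.le_log_of_pow_le (by norm_num)
    rw [pow_succ]
    omega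
  have h1 : ∀ r : Ω, 2 * (Nat.card {x : Ix (2 ^ ℓ) → Fin (2 ^ ℓ) //
      SolvesAPSP (P r) T (graphOf N x)} : ℝ) ≤ Nat.card (Ix (2 ^ ℓ) → Fin (2 ^ ℓ)) :=
    fun r => hdet S T hS hcon σ _ (P r) hσ
  have h2 : ∀ x : Ix (2 ^ ℓ) → Fin (2 ^ ℓ),
      Nat.card Ω < 2 * Nat.card {r : Ω // SolvesAPSP (P r) T (graphOf N x)} := by
    intro x
    apply hP
    intro p
    rcases graphOf_le x p le_rfl with h | ⟨h, h'⟩
    · exact Or.inl h
    · refine Or.inr ⟨h, h'.trans ?_⟩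
      exact_mod_cast hℓL
  have h3 : ∑ x : Ix (2 ^ ℓ) → Fin (2 ^ ℓ),
      Nat.card {r : Ω // SolvesAPSP (P r) T (graphOf N x)} =
      ∑ r : Ω, Nat.card {x : Ix (2 ^ ℓ) → Fin (2 ^ ℓ) // SolvesAPSP (P r) T (graphOf N x)} := by
    simp only [Nat.card_eq_fintype_card, Fintype.card_subtype, Finset.card_filter]
    exact sum_comm
  have h4 : ∑ _x : Ix (2 ^ ℓ) → Fin (2 ^ ℓ), Nat.card Ω <
      ∑ x : Ix (2 ^ ℓ) → Fin (2 ^ ℓ),
        2 * Nat.card {r : Ω // SolvesAPSP (P r) T (graphOf N x)} := by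
    apply sum_lt_sum_of_nonempty
    · exact ⟨fun _ => ⟨0, by positivity⟩, mem_univ _⟩
    · intro x _
      exact h2 x
  have h5 : 2 * ∑ r : Ω, Nat.card {x : Ix (2 ^ ℓ) → Fin (2 ^ ℓ) //
      SolvesAPSP (P r) T (graphOf N x)} ≤
      Nat.card Ω * Nat.card (Ix (2 ^ ℓ) → Fin (2 ^ ℓ)) := by
    rw [mul_sum]
    calc _ ≤ ∑ _r : Ω, Nat.card (Ix (2 ^ ℓ) → Fin (2 ^ ℓ)) := by
          apply sum_le_sum
          intro r _
          have := h1 r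
          exact_mod_cast this
      _ = _ := by rw [sum_const, card_univ, smul_eq_mul, Nat.card_eq_fintype_card (α := Ω)]
  rw [← mul_sum, h3] at h4
  rw [sum_const, card_univ, smul_eq_mul, ← Nat.card_eq_fintype_card] at h4
  rw [mul_comm] at h4
  omega

end Pool.Agent.H537R2.Apsp
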