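import Pool.Agent.H537R2.Apsp.Leaf

/-!
# Most matrices are typical
-/

set_option linter.unusedSectionVars false
set_option maxHeartbeats 400000

namespace Pool.Agent.H537R2.Apsp

open Finset

/-- Few sequences have few hits. -/
theorem tail_bound {R : Type} [Fintype R] [DecidableEq R] (hit : R → Prop) [DecidablePred hit]
    (n m : ℕ) :
    (#(univ.filter (fun c : Fin n → R => #(univ.filter (fun k => hit (c k))) < m)) : ℝ) ≤
      2 ^ m * ((Fintype.card R + #(univ.filter (fun r => ¬ hit r)) : ℝ) / 2) ^ n := by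
  set w : R → ℝ := fun r => if hit r then 1 / 2 else 1 with hw
  have h1 : (∑ r, w r) = (Fintype.card R + #(univ.filter (fun r => ¬ hit r)) : ℝ) / 2 := by
    simp only [hw]
    rw [sum_ite, sum_const, sum_const, nsmul_eq_mul, nsmul_eq_mul]
    have h2 := Finset.card_filter_add_card_filter_not (s := (univ : Finset R)) hit
    have h3 : (#(univ.filter hit) : ℝ) + #(univ.filter (fun r => ¬ hit r)) = Fintype.card R := by
      exact_mod_cast h2
    rw [← h3]
    ring
  rw [← h1, Fintype.sum_pow, mul_sum, Finset.card_filter]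
  push_cast
  refine sum_le_sum fun c _ => ?_
  have h4 : ∏ k, w (c k) = (1 / 2) ^ #(univ.filter (fun k => hit (c k))) := by
    simp only [hw]
    rw [prod_ite, prod_const, prod_const_one, mul_one]
  rw [h4]
  split_ifs with h
  · have h5 : (1 : ℝ) / 2 ^ m ≤ (1 / 2) ^ #(univ.filter (fun k => hit (c k))) := by
      rw [← one_div_pow]
      exact pow_le_pow_of_le_one (by norm_num) (by norm_num) h.le
    have h6 : (0 : ℝ) < 2 ^ m := by positivity
    calc (1 : ℝ) = 2 ^ m * (1 / 2 ^ m) := by field_simp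
      _ ≤ _ := mul_le_mul_of_nonneg_left h5 h6.le
  · positivity

theorem exp_aux (p : ℝ) (h0 : 0 ≤ p) (h1 : p ≤ 1 / 8) :
    (1 + Real.exp (-p)) / 2 ≤ Real.exp (-(15 / 32 * p)) := by
  have h2 : Real.exp (-p) ≤ 1 - p + p ^ 2 / 2 := by
    have h3 := Real.quadratic_le_exp_of_nonneg h0
    have h4 : Real.exp (-p) * Real.exp p = 1 := by rw [← Real.exp_add]; simp
    have h5 : 0 < Real.exp (-p) := Real.exp_pos _
    have h6 : 0 ≤ 1 - p + p ^ 2 / 2 := by nlinarith
    by_contra hcon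
    push Not at hcon
    have h7 : (1 - p + p ^ 2 / 2) * Real.exp p < 1 := by
      calc (1 - p + p ^ 2 / 2) * Real.exp p < Real.exp (-p) * Real.exp p :=
            mul_lt_mul_of_pos_right hcon (Real.exp_pos _)
        _ = 1 := h4
    have h8 : 1 ≤ (1 - p + p ^ 2 / 2) * Real.exp p := by
      calc (1 : ℝ) ≤ (1 - p + p ^ 2 / 2) * (1 + p + p ^ 2 / 2) := by nlinarith [sq_nonneg (p ^ 2)]
        _ ≤ _ := mul_le_mul_of_nonneg_left h3 h6
    linarith
  have h3 := Real.add_one_le_exp (-(15 / 32 * p))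
  nlinarith

/-- For a fixed set of rows, few matrices have few hit columns. -/
theorem card_few_hits (n u : ℕ) (J : Finset (Fin n)) (m : ℕ) (hn : 0 < n) (hu : 8 * (u * #J) ≤ n) :
    (#(univ.filter (fun b : Fin n × Fin n → Fin n =>
      #(univ.filter (fun k => ∃ j ∈ J, (b (j, k)).1 < u)) < m)) : ℝ) ≤
      2 ^ m * Real.exp (-(15 / 32 * (u * #J : ℕ))) * (n : ℝ) ^ (n * n) := by
  classical
  have h1 : #(univ.filter (fun b : Fin n × Fin n → Fin n =>
      #(univ.filter (fun k => ∃ j ∈ J, (b (j, k)).1 < u)) < m)) ≤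
      #(univ.filter (fun c : Fin n → (Fin n → Fin n) =>
        #(univ.filter (fun k => ∃ j ∈ J, (c k j).1 < u)) < m)) := by
    apply Finset.card_le_card_of_injOn (fun b => fun k j => b (j, k))
    · intro b hb
      simpa using hb
    · intro b _ b' _ h
      funext p
      exact congrFun (congrFun h p.2) p.1
  have h2 := tail_bound (fun r : Fin n → Fin n => ∃ j ∈ J, (r j).1 < u) n m
  have h3 : (#(univ.filter (fun r : Fin n → Fin n => ¬ ∃ j ∈ J, (r j).1 < u)) : ℝ) ≤
      Real.exp (-((u * #J : ℕ) : ℝ) / n) * (n : ℝ) ^ n := by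
    have h4 : (univ.filter (fun r : Fin n → Fin n => ¬ ∃ j ∈ J, (r j).1 < u)) ⊆
        Fintype.piFinset (fun j => if j ∈ J then univ.filter (fun r : Fin n => u ≤ r.1)
          else univ) := by
      intro r hr
      have hr' := (mem_filter.1 hr).2
      push Not at hr'
      rw [Fintype.mem_piFinset]
      intro j
      by_cases hj : j ∈ J
      · rw [if_pos hj]
        exact mem_filter.2 ⟨mem_univ _, hr' j hj⟩
      · rw [if_neg hj]; exact mem_univ _
    have h5 : ∀ j : Fin n, ((#(if j ∈ J then univ.filter (fun r : Fin n => u ≤ r.1)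
          else univ) : ℕ) : ℝ) ≤ (if j ∈ J then Real.exp (-((u : ℝ) / n)) else 1) * n := by
      intro j
      by_cases hj : j ∈ J
      · rw [if_pos hj, if_pos hj]
        exact card_ge_le n u _ (fun r hr => (mem_filter.1 hr).2) hn
      · rw [if_neg hj, if_neg hj]
        simp
    calc (#(univ.filter (fun r : Fin n → Fin n => ¬ ∃ j ∈ J, (r j).1 < u)) : ℝ)
        ≤ ((∏ j : Fin n, #(if j ∈ J then univ.filter (fun r : Fin n => u ≤ r.1)
          else univ) : ℕ) : ℝ) := by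
          rw [← Fintype.card_piFinset]
          exact_mod_cast card_le_card h4
      _ = ∏ j : Fin n, ((#(if j ∈ J then univ.filter (fun r : Fin n => u ≤ r.1)
          else univ) : ℕ) : ℝ) := by push_cast; rfl
      _ ≤ ∏ j : Fin n, ((if j ∈ J then Real.exp (-((u : ℝ) / n)) else 1) * n) :=
          Finset.prod_le_prod (fun _ _ => Nat.cast_nonneg _) (fun j _ => h5 j)
      _ = Real.exp (-((u * #J : ℕ) : ℝ) / n) * (n : ℝ) ^ n := by
          rw [prod_mul_distrib, prod_const, card_univ, Fintype.card_fin]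
          congr 1
          rw [prod_ite_mem, univ_inter, prod_const, ← Real.exp_nat_mul]
          congr 1
          push_cast
          ring
  have hn' : (0 : ℝ) < n := by exact_mod_cast hn
  have h4 : ((Fintype.card (Fin n → Fin n) +
      #(univ.filter (fun r : Fin n → Fin n => ¬ ∃ j ∈ J, (r j).1 < u)) : ℝ) / 2) ≤
      Real.exp (-(15 / 32 * (((u * #J : ℕ) : ℝ) / n))) * (n : ℝ) ^ n := by
    have h5 : (Fintype.card (Fin n → Fin n) : ℝ) = (n : ℝ) ^ n := by
      rw [Fintype.card_fun, Fintype.card_fin]; push_cast; rfl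
    have h6 := exp_aux (((u * #J : ℕ) : ℝ) / n) (by positivity) (by
      rw [div_le_iff₀ hn']
      have : (8 : ℝ) * ((u * #J : ℕ) : ℝ) ≤ n := by exact_mod_cast hu
      linarith)
    rw [h5]
    calc _ ≤ ((n : ℝ) ^ n + Real.exp (-((u * #J : ℕ) : ℝ) / n) * (n : ℝ) ^ n) / 2 := by
          gcongr
      _ = (1 + Real.exp (-(((u * #J : ℕ) : ℝ) / n))) / 2 * (n : ℝ) ^ n := by
          rw [neg_div]; ring
      _ ≤ _ := mul_le_mul_of_nonneg_right h6 (by positivity)
  calc _ ≤ (#(univ.filter (fun c : Fin n → (Fin n → Fin n) =>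
        #(univ.filter (fun k => ∃ j ∈ J, (c k j).1 < u)) < m)) : ℝ) := by exact_mod_cast h1
    _ ≤ _ := h2
    _ ≤ 2 ^ m * (Real.exp (-(15 / 32 * (((u * #J : ℕ) : ℝ) / n))) * (n : ℝ) ^ n) ^ n := by
        gcongr
    _ = 2 ^ m * Real.exp (-(15 / 32 * (u * #J : ℕ))) * (n : ℝ) ^ (n * n) := by
        rw [mul_pow, ← pow_mul, ← Real.exp_nat_mul, mul_assoc]
        congr 3
        field_simp

/-- Most matrices are typical. -/
theorem card_not_typ (ℓ τ sm : ℕ) (hτ : 8 ≤ τ) (hsm : sm ≤ τ) (hτn : 8 * 2 ^ τ ≤ 2 ^ ℓ)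
    (hs : ℓ * 2 ^ sm ≤ 2 ^ (τ - 3)) (hs2 : sm + 1 ≤ 2 ^ (τ - 3)) :
    16 * (Nat.card {b : Fin (2 ^ ℓ) × Fin (2 ^ ℓ) → Fin (2 ^ ℓ) // ¬ Typ τ sm b} : ℝ) ≤
      ((2 ^ ℓ : ℕ) : ℝ) ^ (2 ^ ℓ * 2 ^ ℓ) := by
  classical
  set n := 2 ^ ℓ with hn
  have hn0 : 0 < n := by positivity
  set X := 2 ^ (τ - 3) with hX
  have hX1 : 2 ^ τ = 8 * X := by
    rw [hX, show (8 : ℕ) = 2 ^ 3 by norm_num, ← pow_add]; congr 1; omega
  have hX2 : 2 ^ (τ - 2) = 2 * X := by
    rw [hX, show τ - 2 = (τ - 3) + 1 by omega, pow_succ]; ring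
  have hX32 : 32 ≤ X := by
    calc 32 = 2 ^ 5 := by norm_num
      _ ≤ 2 ^ (τ - 3) := Nat.pow_le_pow_right (by norm_num) (by omega)
  set C : ℝ := 2 ^ (2 * X) * Real.exp (-(15 / 4 * X)) * (n : ℝ) ^ (n * n) with hC
  have h1 : ∀ s ≤ sm, ∀ J : Finset (Fin n), #J = 2 ^ s →
      (#(univ.filter (fun b : Fin n × Fin n → Fin n =>
      #(univ.filter (fun k => ∃ j ∈ J, (b (j, k)).1 < 2 ^ (τ - s))) < 2 * X)) : ℝ) ≤ C := by
    intro s hs' J hJ
    have h2 : 2 ^ (τ - s) * #J = 2 ^ τ := by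
      rw [hJ, ← pow_add]; congr 1; omega
    have h3 := card_few_hits n (2 ^ (τ - s)) J (2 * X) hn0 (by rw [h2]; exact hτn)
    rw [h2, hX1] at h3
    refine h3.trans (le_of_eq ?_)
    rw [hC]
    congr 3
    push_cast
    ring
  have h2 : (univ.filter (fun b : Fin n × Fin n → Fin n => ¬ Typ τ sm b)) ⊆
      (range (sm + 1)).biUnion (fun s => ((univ : Finset (Fin n)).powersetCard (2 ^ s)).biUnion
        (fun J => univ.filter (fun b : Fin n × Fin n → Fin n =>
      #(univ.filter (fun k => ∃ j ∈ J, (b (j, k)).1 < 2 ^ (τ - s))) < 2 * X))) := by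
    intro b hb
    have hb' := (mem_filter.1 hb).2
    unfold Typ at hb'
    push Not at hb'
    obtain ⟨s, hs1, J, hJ, hlt⟩ := hb'
    simp only [mem_biUnion, mem_range]
    refine ⟨s, by omega, J, mem_powersetCard.2 ⟨subset_univ _, hJ⟩, ?_⟩
    rw [mem_filter]
    refine ⟨mem_univ _, ?_⟩
    rw [← hX2]
    exact hlt
  have hC0 : 0 ≤ C := by positivity
  have h3 : (#(univ.filter (fun b : Fin n × Fin n → Fin n => ¬ Typ τ sm b)) : ℝ) ≤
      ((sm + 1 : ℕ) : ℝ) * ((n : ℝ) ^ (2 ^ sm) * C) := by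
    calc (#(univ.filter (fun b : Fin n × Fin n → Fin n => ¬ Typ τ sm b)) : ℝ)
        ≤ ((∑ s ∈ range (sm + 1), ∑ J ∈ (univ : Finset (Fin n)).powersetCard (2 ^ s),
          #(univ.filter (fun b : Fin n × Fin n → Fin n =>
          #(univ.filter (fun k => ∃ j ∈ J, (b (j, k)).1 < 2 ^ (τ - s))) < 2 * X)) : ℕ) : ℝ) := by
          have := (card_le_card h2).trans (card_biUnion_le.trans
            (sum_le_sum fun s _ => card_biUnion_le))
          exact_mod_cast this
      _ = ∑ s ∈ range (sm + 1), ∑ J ∈ (univ : Finset (Fin n)).powersetCard (2 ^ s),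
          (#(univ.filter (fun b : Fin n × Fin n → Fin n =>
          #(univ.filter (fun k => ∃ j ∈ J, (b (j, k)).1 < 2 ^ (τ - s))) < 2 * X)) : ℝ) := by
          push_cast; rfl
      _ ≤ ∑ s ∈ range (sm + 1), ∑ J ∈ (univ : Finset (Fin n)).powersetCard (2 ^ s), C := by
          refine sum_le_sum fun s hs' => sum_le_sum fun J hJ => ?_
          exact h1 s (by have := mem_range.1 hs'; omega) J (mem_powersetCard.1 hJ).2
      _ ≤ ∑ s ∈ range (sm + 1), (n : ℝ) ^ (2 ^ sm) * C := by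
          refine sum_le_sum fun s hs' => ?_
          rw [sum_const, card_powersetCard, nsmul_eq_mul]
          apply mul_le_mul_of_nonneg_right _ hC0
          have h5 : (#(univ : Finset (Fin n))).choose (2 ^ s) ≤ n ^ (2 ^ sm) := by
            rw [card_univ, Fintype.card_fin]
            refine (Nat.choose_le_pow n (2 ^ s)).trans ?_
            apply Nat.pow_le_pow_right hn0
            apply Nat.pow_le_pow_right (by norm_num)
            have := mem_range.1 hs'
            omega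
          exact_mod_cast h5
      _ = _ := by rw [sum_const, card_range, nsmul_eq_mul]
  have h4 : (n : ℝ) ^ (2 ^ sm) ≤ 2 ^ X := by
    rw [hn]
    push_cast
    rw [← pow_mul]
    exact pow_le_pow_right₀ (by norm_num) hs
  have hXr : (32 : ℝ) ≤ X := by exact_mod_cast hX32
  have h5 : ((sm + 1 : ℕ) : ℝ) ≤ X := by exact_mod_cast hs2
  have h6 : (2 : ℝ) ^ X * 2 ^ (2 * X) * Real.exp (-(15 / 4 * X)) ≤ Real.exp (-(X : ℝ)) := by
    have h7 : (2 : ℝ) ^ X * 2 ^ (2 * X) = Real.exp (3 * X * Real.log 2) := by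
      rw [← pow_add, show X + 2 * X = 3 * X by ring,
        show (3 * (X : ℝ) * Real.log 2) = ((3 * X : ℕ) : ℝ) * Real.log 2 by push_cast; ring,
        Real.exp_nat_mul, Real.exp_log (by norm_num)]
    rw [h7, ← Real.exp_add]
    apply Real.exp_le_exp.2
    have h8 := Real.log_two_lt_d9
    nlinarith
  have h7 : (X : ℝ) * Real.exp (-(X : ℝ)) ≤ 1 / 16 := by
    have h8 := Real.quadratic_le_exp_of_nonneg (show (0 : ℝ) ≤ X by linarith)
    have h9 : Real.exp (-(X : ℝ)) * Real.exp X = 1 := by rw [← Real.exp_add]; simp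
    have h10 : 0 < Real.exp (-(X : ℝ)) := Real.exp_pos _
    have h11 : 16 * (X : ℝ) ≤ Real.exp X := by nlinarith
    have h12 : Real.exp (-(X : ℝ)) * (16 * X) ≤ 1 := by
      rw [← h9]
      exact mul_le_mul_of_nonneg_left h11 h10.le
    linarith
  rw [Nat.card_eq_fintype_card, Fintype.card_subtype]
  have hpos : (0 : ℝ) ≤ (n : ℝ) ^ (n * n) := by positivity
  calc 16 * (#(univ.filter (fun b : Fin n × Fin n → Fin n => ¬ Typ τ sm b)) : ℝ)
      ≤ 16 * (((sm + 1 : ℕ) : ℝ) * ((n : ℝ) ^ (2 ^ sm) * C)) := by linarith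
    _ ≤ 16 * ((X : ℝ) * (2 ^ X * C)) := by gcongr
    _ = 16 * ((X : ℝ) * (2 ^ X * 2 ^ (2 * X) * Real.exp (-(15 / 4 * X)))) *
        (n : ℝ) ^ (n * n) := by rw [hC]; ring
    _ ≤ 16 * ((X : ℝ) * Real.exp (-(X : ℝ))) * (n : ℝ) ^ (n * n) := by gcongr
    _ ≤ 16 * (1 / 16) * (n : ℝ) ^ (n * n) := by gcongr
    _ = (n : ℝ) ^ (n * n) := by ring

end Pool.Agent.H537R2.Apsp
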